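import Pool.Graph.R_pool_sql_team_seeded_2aa45f1a.Q51.LI.Final
import Pool.Graph.R_pool_sql_team_seeded_2aa45f1a.Q51.LI.MomentAs

/-!
# Binary vectors any few of which are linearly independent

For `m, r ≥ 1` there are `2 ^ m` vectors of length `1 + m r` over the field with two elements, any at most `2 r + 1` of
which are linearly independent (the columns of the parity check matrix of an extended binary BCH code).
-/

namespace Pool.Agent.H453.LI

open Finset

lemma empty_of_power_sums {F : Type} [Field F] [CharP F 2] (r : ℕ) (T : Finset F) (hT : T.card ≤ 2 * r)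
    (h0 : Even T.card) (hodd : ∀ i < r, ∑ x ∈ T, x ^ (2 * i + 1) = 0) : T = ∅ := by
  classical
  have : Fact (Nat.Prime 2) := ⟨Nat.prime_two⟩
  have hall : ∀ j : ℕ, j < 2 * r → ∑ x ∈ T, x ^ j = 0 := by
    intro j
    induction j using Nat.strong_induction_on with
    | _ j ih =>
      intro hj
      rcases Nat.even_or_odd' j with ⟨l, hl | hl⟩
      · rcases Nat.eq_zero_or_pos l with h | h
        · subst hl
          subst h
          simp only [Nat.mul_zero, pow_zero, sum_const, nsmul_eq_mul, mul_one]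
          obtain ⟨c, hc⟩ := h0
          rw [hc]
          push_cast
          exact CharTwo.add_self_eq_zero _
        · have h1 := ih l (by omega) (by omega)
          have h2 : (∑ x ∈ T, x ^ l) ^ 2 = ∑ x ∈ T, (x ^ l) ^ 2 := sum_pow_char 2 T _
          rw [h1] at h2
          rw [hl]
          simp only [Nat.mul_comm 2 l, pow_mul]
          rw [← h2]
          ring
      · rw [hl]
        exact hodd l (by omega)
  by_contra hne
  obtain ⟨a, ha⟩ := nonempty_iff_ne_empty.2 hne
  set Q : Polynomial F := ∏ x ∈ T.erase a, (Polynomial.X - Polynomial.C x) with hQ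
  have hd : Q.natDegree < 2 * r := by
    rw [hQ, Polynomial.natDegree_prod_of_monic _ _ (fun x _ => Polynomial.monic_X_sub_C x)]
    simp only [Polynomial.natDegree_X_sub_C, sum_const, smul_eq_mul, mul_one]
    rw [card_erase_of_mem ha]
    have := card_pos.2 ⟨a, ha⟩
    omega
  have h1 : ∑ x ∈ T, Q.eval x = 0 := by
    simp only [Polynomial.eval_eq_sum_range' hd]
    rw [sum_comm]
    refine sum_eq_zero fun i hi => ?_
    rw [← mul_sum, hall i (mem_range.1 hi), mul_zero]
  have h2 : ∑ x ∈ T, Q.eval x = Q.eval a := by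
    refine sum_eq_single_of_mem a ha fun x hx hxa => ?_
    rw [hQ, Polynomial.eval_prod]
    exact prod_eq_zero (mem_erase.2 ⟨hxa, hx⟩) (by simp)
  rw [h1] at h2
  rw [hQ, Polynomial.eval_prod] at h2
  rw [eq_comm, prod_eq_zero_iff] at h2
  obtain ⟨x, hx, hx0⟩ := h2
  simp only [Polynomial.eval_sub, Polynomial.eval_X, Polynomial.eval_C, sub_eq_zero] at hx0
  exact (mem_erase.1 hx).1 hx0.symm

lemma zmod2_one : ∀ {z : ZMod 2}, z ≠ 0 → z = 1 := by decide

/-- **BCH vectors.** -/
theorem bch (m r : ℕ) (hm : 1 ≤ m) : ∃ W : ℕ → (Fin (1 + m * r) → ZMod 2), ∀ (s : Finset ℕ) (v : ℕ → ℕ),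
    (∀ n ∈ s, v n < 2 ^ m) → Set.InjOn v s → s.card ≤ 2 * r + 1 →
      LinearIndependent (ZMod 2) (fun n : s => W (v n)) := by
  classical
  have : Fact (Nat.Prime 2) := ⟨Nat.prime_two⟩
  have hm0 : m ≠ 0 := by omega
  have e : GaloisField 2 m ≃ Fin (2 ^ m) := Finite.equivFinOfCardEq (GaloisField.card 2 m hm0)
  set emb : ℕ → GaloisField 2 m := fun n => if h : n < 2 ^ m then e.symm ⟨n, h⟩ else 0 with hemb
  have hinj : ∀ a b : ℕ, a < 2 ^ m → b < 2 ^ m → emb a = emb b → a = b := by
    intro a b ha hb h
    simp only [hemb, dif_pos ha, dif_pos hb] at h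
    have := e.symm.injective h
    simpa using this
  have hfr : Module.finrank (ZMod 2) (ZMod 2 × (Fin r → GaloisField 2 m)) =
      Module.finrank (ZMod 2) (Fin (1 + m * r) → ZMod 2) := by
    rw [Module.finrank_prod, Module.finrank_self, Module.finrank_pi_fintype, Module.finrank_fin_fun]
    simp only [GaloisField.finrank 2 hm0, sum_const, card_univ, Fintype.card_fin, smul_eq_mul]
    ring
  let f : (ZMod 2 × (Fin r → GaloisField 2 m)) ≃ₗ[ZMod 2] (Fin (1 + m * r) → ZMod 2) := LinearEquiv.ofFinrankEq _ _ hfr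
  refine ⟨fun n => f (1, fun i => emb n ^ (2 * (i : ℕ) + 1)), ?_⟩
  intro s v hv hvinj hs
  rw [Fintype.linearIndependent_iff]
  intro g hg
  have hg2 : ∑ n : s, g n • ((1 : ZMod 2), fun i : Fin r => emb (v n) ^ (2 * (i : ℕ) + 1)) = 0 := by
    apply f.injective
    rw [map_sum, map_zero, ← hg]
    exact sum_congr rfl fun n _ => by rw [map_smul]
  set T' : Finset s := univ.filter fun n => g n ≠ 0 with hT'
  have h01 : ∀ n : s, g n = if n ∈ T' then 1 else 0 := by
    intro n
    by_cases h : g n = 0
    · rw [if_neg (by simp [hT', h]), h]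
    · rw [if_pos (by simp [hT', h])]
      exact zmod2_one h
  have hfst : ∑ n : s, g n = 0 := by
    have := congrArg Prod.fst hg2
    rw [Prod.fst_sum] at this
    simpa using this
  have hcard : Even T'.card := by
    have h1 : ∑ n : s, g n = (T'.card : ZMod 2) := by
      rw [sum_congr rfl fun n _ => h01 n, sum_ite_mem, univ_inter, sum_const, nsmul_eq_mul, mul_one]
    rw [hfst] at h1
    exact (ZMod.natCast_eq_zero_iff_even).1 h1.symm
  have hsnd : ∀ i : ℕ, i < r → ∑ n ∈ T', emb (v n) ^ (2 * i + 1) = 0 := by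
    intro i hi
    have h1 := congrFun (congrArg Prod.snd hg2) ⟨i, hi⟩
    rw [Prod.snd_sum, Finset.sum_apply] at h1
    simp only [Prod.smul_mk, Pi.smul_apply, Prod.snd_zero, Pi.zero_apply] at h1
    have h2 : ∀ n : s, g n • emb (v n) ^ (2 * i + 1) = if n ∈ T' then emb (v n) ^ (2 * i + 1) else 0 := by
      intro n
      by_cases h : n ∈ T'
      · rw [h01 n, if_pos h, if_pos h, one_smul]
      · rw [h01 n, if_neg h, if_neg h, zero_smul]
    rw [sum_congr rfl fun n _ => h2 n, sum_ite_mem, univ_inter] at h1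
    exact h1
  have hinj' : Set.InjOn (fun n : s => emb (v n)) T' := by
    intro a _ b _ hab
    exact Subtype.ext (hvinj a.2 b.2 (hinj _ _ (hv _ a.2) (hv _ b.2) hab))
  have hTc : (T'.image fun n : s => emb (v n)).card = T'.card := card_image_of_injOn hinj'
  have hle : T'.card ≤ 2 * r := by
    have h1 : T'.card ≤ Fintype.card s := card_le_univ _
    rw [Fintype.card_coe] at h1
    obtain ⟨c, hc⟩ := hcard
    omega
  have hempty := empty_of_power_sums r (T'.image fun n : s => emb (v n)) (by rw [hTc]; exact hle) (by rw [hTc]; exact hcard)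
    (fun i hi => by rw [sum_image hinj']; exact hsnd i hi)
  rw [image_eq_empty] at hempty
  intro n
  rw [h01 n, hempty]
  simp

/-- Counting the codewords with prescribed values. -/
theorem count_code {d : ℕ} (W : ℕ → (Fin d → ZMod 2)) (s : Finset ℕ)
    (hs : LinearIndependent (ZMod 2) (fun n : s => W n)) (L : ℕ → Finset (ZMod 2)) :
    (univ.filter fun c : Fin d → ZMod 2 => ∀ n ∈ s, W n ⬝ᵥ c ∈ L n).card * 2 ^ s.card =
      2 ^ d * ∏ n ∈ s, (L n).card := by
  classical
  let M : Matrix s (Fin d) (ZMod 2) := fun n => W n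
  have hrank : M.rank = Fintype.card s := LinearIndependent.rank_matrix (M := M) hs
  have hsurj' : Function.Surjective M.mulVecLin := by
    rw [← LinearMap.range_eq_top]
    apply Submodule.eq_top_of_finrank_eq
    rw [Module.finrank_fintype_fun_eq_card]
    exact hrank
  let φ : (Fin d → ZMod 2) →+ (s → ZMod 2) := M.mulVecLin.toAddMonoidHom
  have hφ : ∀ c (n : s), φ c n = W n ⬝ᵥ c := fun c n => rfl
  have hsurj : Function.Surjective φ := hsurj'
  set c0 := (univ.filter fun c => φ c = 0).card with hc0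
  have hfib : ∀ w : s → ZMod 2, (univ.filter fun c => φ c = w).card = c0 := fun w =>
    AddMonoidHom.card_fiber_eq_of_mem_range φ (hsurj w) (hsurj 0)
  have htot : 2 ^ d = 2 ^ s.card * c0 := by
    have h1 : (univ : Finset (Fin d → ZMod 2)).card = ∑ w ∈ (univ : Finset (s → ZMod 2)), (univ.filter fun c => φ c = w).card :=
      card_eq_sum_card_fiberwise fun x _ => mem_univ _
    simp_rw [hfib] at h1
    rw [sum_const, smul_eq_mul, card_univ, card_univ, Fintype.card_fun, Fintype.card_fun, Fintype.card_fin,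
      Fintype.card_coe, ZMod.card] at h1
    exact h1
  have hW : (univ.filter fun c : Fin d → ZMod 2 => ∀ n ∈ s, W n ⬝ᵥ c ∈ L n).card =
      (Fintype.piFinset fun n : s => L n).card * c0 := by
    have h1 : (univ.filter fun c : Fin d → ZMod 2 => ∀ n ∈ s, W n ⬝ᵥ c ∈ L n).card =
        ∑ w ∈ (Fintype.piFinset fun n : s => L n), ((univ.filter fun c : Fin d → ZMod 2 => ∀ n ∈ s, W n ⬝ᵥ c ∈ L n).filter
          fun c => φ c = w).card := by
      refine card_eq_sum_card_fiberwise fun c hc => ?_
      have hc' := (mem_filter.1 hc).2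
      rw [mem_coe, Fintype.mem_piFinset]
      exact fun n => hc' n n.2
    rw [h1, ← smul_eq_mul, ← sum_const]
    refine sum_congr rfl fun w hw => ?_
    rw [← hfib w]
    congr 1
    ext c
    simp only [mem_filter, mem_univ, true_and]
    constructor
    · exact fun h => h.2
    · intro h
      refine ⟨fun n hn => ?_, h⟩
      rw [Fintype.mem_piFinset] at hw
      have := hw ⟨n, hn⟩
      rw [← h] at this
      exact this
  rw [hW, htot, Fintype.card_piFinset, prod_coe_sort s (fun n => (L n).card)]
  ring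

end Pool.Agent.H453.LI
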