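import Pool.Agent.H453.LI.Finite

/-!
# The largest gaps on dyadic scales
-/

namespace Pool.Agent.H453.LI

open Finset MeasureTheory Filter Topology
open Pool.Agent.Q51.LI (pr pr_mem IsRandomSet HasGap void void_pairwise ae_eventually log_two_pow exists_dyadic)

/-- the length of the groups -/
def gg (t : ℕ) : ℕ := max 1 (t / 3)

lemma gg_pos (t : ℕ) : 1 ≤ gg t := le_max_left _ _

lemma gg_log (n : ℕ) (hn : 8 ≤ n) : 2 * (gg (Nat.log 2 n) : ℝ) ≤ Real.log n := by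
  unfold gg
  rcases le_total (Nat.log 2 n / 3) 1 with h | h
  · rw [max_eq_left h]
    simpa using two_le_log hn
  · rw [max_eq_right h]
    have h1 : 2 ^ Nat.log 2 n ≤ n := Nat.pow_log_le_self 2 (by omega)
    have h2 : (Nat.log 2 n : ℝ) * Real.log 2 ≤ Real.log n := by
      rw [← log_two_pow]
      exact Real.log_le_log (by positivity) (by exact_mod_cast h1)
    have h3 : ((Nat.log 2 n / 3 : ℕ) : ℝ) ≤ (Nat.log 2 n : ℝ) / 3 := Nat.cast_div_le
    have h4 : (0.69 : ℝ) < Real.log 2 := by have := Real.log_two_gt_d9; linarith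
    have h5 : (0 : ℝ) ≤ Nat.log 2 n := by positivity
    nlinarith

lemma log_eq {t n : ℕ} (h1 : 2 ^ t ≤ n) (h2 : n < 2 ^ (t + 1)) : Nat.log 2 n = t :=
  (Nat.log_eq_iff (Or.inr ⟨by norm_num, by have := Nat.pos_of_ne_zero (n := 2 ^ t) (by positivity); omega⟩)).2 ⟨h1, h2⟩

/-- the blocks of the window -/
def win (H t : ℕ) : Finset ℕ := Ico (2 ^ t / H + 1) (2 ^ (t + 1) / H)

lemma card_win {H t : ℕ} (hH : 1 ≤ H) (h4 : 4 * H ≤ 2 ^ t) : (2 : ℝ) ^ t / (2 * H) ≤ ((win H t).card : ℝ) := by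
  unfold win
  rw [Nat.card_Ico]
  have hH0 : (0 : ℝ) < H := by exact_mod_cast hH
  refine le_trans ?_ (count_blocks (H := H) (u := 2 ^ t) (v := 2 ^ (t + 1)) hH)
  push_cast
  have e : ((2 : ℝ) ^ (t + 1) - 2 ^ t) / H - 2 = ((2 : ℝ) ^ t - 2 * H) / H := by
    rw [pow_succ]
    field_simp
    ring
  rw [e, div_le_div_iff₀ (by positivity) hH0]
  have h4' : 4 * (H : ℝ) ≤ 2 ^ t := by exact_mod_cast h4
  nlinarith

/-- the expected number of silent blocks of a window -/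
lemma silent_sum {g G t k : ℕ} (hk : 1 ≤ k) (hg : 1 ≤ g) (hG : 1 ≤ G) (h4 : 4 * (g * G) ≤ 2 ^ t) {B : ℝ}
    (hB : (2 * (G : ℝ)) ^ k * B ≤ 2 ^ t) :
    B / (4 * g) ≤ ((win (g * G) t).card : ℝ) / (2 * (2 * (G : ℝ)) ^ (k - 1)) := by
  have hg0 : (0 : ℝ) < g := by exact_mod_cast hg
  have hG0 : (0 : ℝ) < G := by exact_mod_cast hG
  have hH1 : 1 ≤ g * G := Nat.one_le_iff_ne_zero.2 (by positivity)
  have h1 := card_win hH1 h4
  rw [le_div_iff₀ (by positivity)]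
  refine le_trans ?_ h1
  push_cast
  have e9 : (2 * (G : ℝ)) ^ k = (2 * (G : ℝ)) ^ (k - 1) * (2 * G) := by
    rw [← pow_succ]
    congr 1
    omega
  rw [le_div_iff₀ (by positivity)]
  have e : B / (4 * g) * (2 * (2 * (G : ℝ)) ^ (k - 1)) * (2 * (g * G)) = (2 * (G : ℝ)) ^ k * B / 2 := by
    rw [e9]
    field_simp
    ring
  rw [e]
  have h0 : (0 : ℝ) ≤ 2 ^ t := by positivity
  linarith

section

variable {Ω : Type} [MeasurableSpace Ω] {P : Measure Ω} [IsProbabilityMeasure P] {E Z : ℕ → Set Ω}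

/-- almost surely the random set meets all large intervals that are needed -/
lemma ae_not_void {K : ℕ} (hK : 2 ≤ K) (hE : ∀ X, IsRandomSet P K X E) :
    ∀ᵐ ω ∂P, ∀ᶠ t : ℕ in atTop, ω ∉ void E (Ico 3 (3 + (2 ^ t - 3))) ∪
      void E (Ico (2 ^ (t + 2) / 2 + 1) (2 ^ (t + 2) / 2 + 1 + (2 ^ (t + 2) - 2 ^ (t + 2) / 2))) := by
  refine ae_eventually _ (fun t => 36 * ((t : ℝ) ^ 2 * (1 / 2) ^ t)) ?_ 4 ?_
  · have h0 : Summable fun t : ℕ => (t : ℝ) ^ 2 * (1 / 2 : ℝ) ^ t :=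
      summable_pow_mul_geometric_of_norm_lt_one 2 (by norm_num)
    exact h0.mul_left 36
  · intro t ht
    have hX : 3 ≤ 2 ^ (t + 2) := by
      have : 2 ^ 2 ≤ 2 ^ (t + 2) := Nat.pow_le_pow_right (by norm_num) (by omega)
      omega
    have h16 : 2 ^ 4 ≤ 2 ^ t := Nat.pow_le_pow_right (by norm_num) ht
    have e2 : 2 ^ (t + 2) = 4 * 2 ^ t := by ring
    have e3 : 2 ^ (t + 2) / 2 = 2 * 2 ^ t := by omega
    have a1 := void_pairwise hK hX (hE _) 3 (2 ^ t - 3) le_rfl (by omega) (by omega)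
    have a2 := void_pairwise hK hX (hE _) (2 ^ (t + 2) / 2 + 1) (2 ^ (t + 2) - 2 ^ (t + 2) / 2) (by omega) (by omega)
      (by omega)
    refine (measureReal_union_le _ _).trans ((add_le_add a1 a2).trans ?_)
    have hl : Real.log ((2 ^ (t + 2) : ℕ) : ℝ) ≤ 2 * t := by
      rw [log_two_pow]
      have h7 : Real.log 2 < 0.7 := by have := Real.log_two_lt_d9; linarith
      have h8 : (4 : ℝ) ≤ t := by exact_mod_cast ht
      have h9 : (0 : ℝ) ≤ t := by positivity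
      push_cast
      nlinarith [Real.log_pos (show (1 : ℝ) < 2 by norm_num)]
    have hl0 : 0 ≤ Real.log ((2 ^ (t + 2) : ℕ) : ℝ) := Real.log_nonneg (by
      have : 1 ≤ 2 ^ (t + 2) := by omega
      exact_mod_cast this)
    have hl2 : Real.log ((2 ^ (t + 2) : ℕ) : ℝ) ^ 2 ≤ 4 * (t : ℝ) ^ 2 := by nlinarith
    have p0 : (0 : ℝ) < 2 ^ t := by positivity
    have b1 : (2 : ℝ) ^ t / 2 ≤ ((2 ^ t - 3 : ℕ) : ℝ) := by
      rw [Nat.cast_sub (by omega)]
      push_cast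
      have : (16 : ℝ) ≤ 2 ^ t := by
        have : (2 : ℝ) ^ 4 ≤ 2 ^ t := by exact_mod_cast h16
        linarith
      linarith
    have b2 : (2 : ℝ) ^ t / 2 ≤ ((2 ^ (t + 2) - 2 ^ (t + 2) / 2 : ℕ) : ℝ) := by
      have e4 : 2 ^ (t + 2) - 2 ^ (t + 2) / 2 = 2 * 2 ^ t := by omega
      rw [e4]
      push_cast
      linarith
    have c1 : Real.log ((2 ^ (t + 2) : ℕ) : ℝ) ^ 2 / ((2 ^ t - 3 : ℕ) : ℝ) ≤ (4 * (t : ℝ) ^ 2) / ((2 : ℝ) ^ t / 2) :=
      div_le_div₀ (by positivity) hl2 (by positivity) b1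
    have c2 : Real.log ((2 ^ (t + 2) : ℕ) : ℝ) ^ 2 / ((2 ^ (t + 2) - 2 ^ (t + 2) / 2 : ℕ) : ℝ) ≤
        (4 * (t : ℝ) ^ 2) / ((2 : ℝ) ^ t / 2) :=
      div_le_div₀ (by positivity) hl2 (by positivity) b2
    have e5 : (4 * (t : ℝ) ^ 2) / ((2 : ℝ) ^ t / 2) = 8 * ((t : ℝ) ^ 2 * (1 / 2) ^ t) := by
      rw [one_div, inv_pow]
      field_simp
      ring
    have e6 : 0 ≤ (t : ℝ) ^ 2 * (1 / 2) ^ t := by positivity
    linarith

/-- Silent blocks in all large windows of a sequence, if the expected numbers are at least `2 log`. -/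
lemma ae_silent_all {k : ℕ} {Gf H : ℕ → ℕ} (c : ℕ → ℕ)
    (hP : ∀ (t : ℕ) (J : Finset ℕ), P.real {ω | ∀ l ∈ J, ω ∉ Z (Nat.pair t l)} ≤
        Real.exp (-(J.card / (2 * (2 * (Gf t : ℝ)) ^ (k - 1)))))
    (h2 : ∀ᶠ s : ℕ in atTop, 2 * Real.log s ≤ ((win (H (c s)) (c s)).card : ℝ) / (2 * (2 * (Gf (c s) : ℝ)) ^ (k - 1))) :
    ∀ᵐ ω ∂P, ∀ᶠ s : ℕ in atTop, ∃ l ∈ win (H (c s)) (c s), ω ∈ Z (Nat.pair (c s) l) := by
  obtain ⟨s₀, hs₀⟩ := eventually_atTop.1 h2
  have h := ae_eventually (P := P) (fun s => {ω | ∀ l ∈ win (H (c s)) (c s), ω ∉ Z (Nat.pair (c s) l)})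
    (fun s => ((s : ℝ) ^ 2)⁻¹) (Real.summable_nat_pow_inv.2 (by norm_num)) (max s₀ 1) (by
      intro s hs
      refine (hP (c s) _).trans ?_
      have hs1 : (0 : ℝ) < s := by
        have : 0 < s := by omega
        exact_mod_cast this
      have e : ((s : ℝ) ^ 2)⁻¹ = Real.exp (-(2 * Real.log s)) := by
        rw [Real.exp_neg, mul_comm, Real.exp_mul, Real.exp_log hs1]
        norm_num
      rw [e]
      exact Real.exp_le_exp.2 (neg_le_neg (hs₀ s (le_trans (le_max_left _ _) hs))))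
  filter_upwards [h] with ω hω
  filter_upwards [hω] with s hs
  by_contra hcon
  push Not at hcon
  exact hs hcon

/-- Silent blocks in infinitely many windows of a sequence, if the sum of the expected numbers is infinite. -/
lemma ae_silent_often {k : ℕ} {Gf H : ℕ → ℕ} (c : ℕ → ℕ) (hc : Function.Injective c)
    (hP : ∀ J : Finset ℕ, P.real {ω | ∀ j ∈ J, ω ∉ Z j} ≤
        Real.exp (-∑ j ∈ J, 1 / (2 * (2 * (Gf (Nat.unpair j).1 : ℝ)) ^ (k - 1))))
    (δ : ℝ) (hδ : 0 < δ)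
    (h2 : ∀ᶠ s : ℕ in atTop, δ * (1 / ((s : ℝ) + 1)) ≤
      ((win (H (c s)) (c s)).card : ℝ) / (2 * (2 * (Gf (c s) : ℝ)) ^ (k - 1))) :
    ∀ᵐ ω ∂P, ∃ᶠ s : ℕ in atTop, ∃ l ∈ win (H (c s)) (c s), ω ∈ Z (Nat.pair (c s) l) := by
  classical
  obtain ⟨s₀, hs₀⟩ := eventually_atTop.1 h2
  have key : ∀ T : ℕ, P.real {ω | ∀ s, T ≤ s → ∀ l ∈ win (H (c s)) (c s), ω ∉ Z (Nat.pair (c s) l)} = 0 := by
    intro T
    refine le_antisymm ?_ measureReal_nonneg
    set S := max T s₀ with hS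
    have hbound : ∀ M : ℕ, P.real {ω | ∀ s, T ≤ s → ∀ l ∈ win (H (c s)) (c s), ω ∉ Z (Nat.pair (c s) l)} ≤
        Real.exp (-(δ * (∑ i ∈ range M, (1 / ((i : ℝ) + 1)) - ∑ i ∈ range S, (1 / ((i : ℝ) + 1))))) := by
      intro M
      set J : Finset ℕ := ((range M).filter fun s => S ≤ s).biUnion fun s =>
        (win (H (c s)) (c s)).image fun l => Nat.pair (c s) l with hJ
      have hsub : {ω | ∀ s, T ≤ s → ∀ l ∈ win (H (c s)) (c s), ω ∉ Z (Nat.pair (c s) l)} ⊆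
          {ω | ∀ j ∈ J, ω ∉ Z j} := by
        intro ω hω j hj
        rw [hJ, mem_biUnion] at hj
        obtain ⟨s, hs, hj⟩ := hj
        rw [mem_image] at hj
        obtain ⟨l, hl, rfl⟩ := hj
        exact hω s (le_trans (le_max_left _ _) (mem_filter.1 hs).2) l hl
      refine (measureReal_mono hsub (measure_ne_top _ _)).trans ((hP J).trans (Real.exp_le_exp.2 (neg_le_neg ?_)))
      have hsum : ∑ j ∈ J, 1 / (2 * (2 * (Gf (Nat.unpair j).1 : ℝ)) ^ (k - 1)) =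
          ∑ s ∈ (range M).filter (fun s => S ≤ s),
            ((win (H (c s)) (c s)).card : ℝ) / (2 * (2 * (Gf (c s) : ℝ)) ^ (k - 1)) := by
        rw [hJ, sum_biUnion]
        · refine sum_congr rfl fun s _ => ?_
          rw [sum_image (fun a _ b _ h => (Nat.pair_eq_pair.1 h).2)]
          simp only [Nat.unpair_pair, sum_const, nsmul_eq_mul]
          rw [mul_one_div]
        · intro a _ b _ hab
          rw [Function.onFun, disjoint_left]
          intro j hja hjb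
          rw [mem_image] at hja hjb
          obtain ⟨l, _, rfl⟩ := hja
          obtain ⟨l', _, h'⟩ := hjb
          exact hab (hc (Nat.pair_eq_pair.1 h').1.symm)
      rw [hsum]
      have h3 : ∑ s ∈ (range M).filter (fun s => S ≤ s), δ * (1 / ((s : ℝ) + 1)) ≤
          ∑ s ∈ (range M).filter (fun s => S ≤ s),
            ((win (H (c s)) (c s)).card : ℝ) / (2 * (2 * (Gf (c s) : ℝ)) ^ (k - 1)) :=
        sum_le_sum fun s hs => hs₀ s (le_trans (le_max_right _ _) (mem_filter.1 hs).2)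
      refine le_trans ?_ h3
      rw [← mul_sum]
      refine mul_le_mul_of_nonneg_left ?_ hδ.le
      have h4 : ∑ i ∈ range M, (1 / ((i : ℝ) + 1)) =
          ∑ s ∈ (range M).filter (fun s => S ≤ s), (1 / ((s : ℝ) + 1)) +
            ∑ s ∈ (range M).filter (fun s => ¬ S ≤ s), (1 / ((s : ℝ) + 1)) :=
        (sum_filter_add_sum_filter_not _ _ _).symm
      have h5 : ∑ s ∈ (range M).filter (fun s => ¬ S ≤ s), (1 / ((s : ℝ) + 1)) ≤ ∑ i ∈ range S, (1 / ((i : ℝ) + 1)) := by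
        refine sum_le_sum_of_subset_of_nonneg ?_ fun i _ _ => by positivity
        intro s hs
        rw [mem_filter] at hs
        exact mem_range.2 (by omega)
      linarith
    have hlim : Tendsto (fun M : ℕ =>
        Real.exp (-(δ * (∑ i ∈ range M, (1 / ((i : ℝ) + 1)) - ∑ i ∈ range S, (1 / ((i : ℝ) + 1)))))) atTop (𝓝 0) := by
      refine Real.tendsto_exp_neg_atTop_nhds_zero.comp ?_
      refine Tendsto.const_mul_atTop hδ ?_
      have h6 := tendsto_atTop_add_const_right atTop (-(∑ i ∈ range S, (1 / ((i : ℝ) + 1))))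
        Real.tendsto_sum_range_one_div_nat_succ_atTop
      simpa only [sub_eq_add_neg] using h6
    exact ge_of_tendsto' hlim hbound
  have h : ∀ T : ℕ, ∀ᵐ ω ∂P, ¬ ∀ s, T ≤ s → ∀ l ∈ win (H (c s)) (c s), ω ∉ Z (Nat.pair (c s) l) := by
    intro T
    rw [ae_iff]
    simp only [not_not]
    have h1 := key T
    rw [Measure.real, ENNReal.toReal_eq_zero_iff] at h1
    exact h1.resolve_right (measure_ne_top _ _)
  filter_upwards [ae_all_iff.2 h] with ω hω
  rw [frequently_atTop]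
  intro T
  have h1 := hω T
  push Not at h1
  exact h1

end

end Pool.Agent.H453.LI
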