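import Pool.Agent.H453.LI.Window

/-!
# Large gaps with independence of order `2 k - 1`, uniformly in `k`
-/

namespace Pool.Agent.H453.LI

open Finset MeasureTheory
open Pool.Agent.Q51.LI (pr pr_mem IsRandomSet HasGap numeric)

lemma two_le_log {n : ℕ} (hn : 8 ≤ n) : 2 ≤ Real.log n := by
  have h8 : (8 : ℝ) ≤ n := by exact_mod_cast hn
  have h1 : Real.log 8 ≤ Real.log n := Real.log_le_log (by norm_num) h8
  have h2 : (2 : ℝ) ≤ Real.log 8 := by
    have e : (8 : ℝ) = 2 ^ 3 := by norm_num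
    rw [e, Real.log_pow]
    have := Real.log_two_gt_d9
    push_cast
    linarith
  linarith

/-- the number of blocks in a window -/
lemma count_blocks {H u v : ℕ} (hH : 1 ≤ H) :
    ((v : ℝ) - u) / H - 2 ≤ ((v / H - (u / H + 1) : ℕ) : ℝ) := by
  have hH0 : (0 : ℝ) < H := by exact_mod_cast hH
  have e5 : ((v / H : ℕ) : ℝ) ≥ (v : ℝ) / H - 1 := by
    have h1 : v < (v / H + 1) * H := by
      have := Nat.lt_div_mul_add (a := v) (b := H) (by omega)
      have e : (v / H + 1) * H = v / H * H + H := by ring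
      omega
    have h2 : (v : ℝ) < (((v / H : ℕ) : ℝ) + 1) * H := by exact_mod_cast h1
    have h3 : (v : ℝ) / H < ((v / H : ℕ) : ℝ) + 1 := by rwa [div_lt_iff₀ hH0]
    linarith
  have e6 : ((u / H : ℕ) : ℝ) ≤ (u : ℝ) / H := Nat.cast_div_le
  have e7 : ((v / H : ℕ) : ℝ) ≤ ((v / H - (u / H + 1) : ℕ) : ℝ) + ((u / H + 1 : ℕ) : ℝ) := by
    have : v / H ≤ (v / H - (u / H + 1)) + (u / H + 1) := by omega
    exact_mod_cast this
  have h3 : ((v : ℝ) - u) / H = (v : ℝ) / H - u / H := sub_div _ _ _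
  push_cast at e7
  linarith

/-- the three error terms -/
lemma three_terms {X u : ℕ} (hL : 1000 ≤ Real.log X) (hu : Real.exp (Real.log X / 2) ≤ u) :
    Real.exp (-Real.log X) +
        (Real.log X ^ 2 / ((u - 3 : ℕ) : ℝ) + Real.log X ^ 2 / ((X - X / 2 : ℕ) : ℝ)) ≤ Real.exp (-(Real.log X / 3)) := by
  set L := Real.log X with hLdef
  have hX0' : X ≠ 0 := by
    rintro rfl
    simp at hLdef
    linarith
  have hX0 : (0 : ℝ) < X := by exact_mod_cast Nat.pos_of_ne_zero hX0'
  have hXe : Real.exp L = X := Real.exp_log hX0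
  have hsq : Real.exp (L / 2) ^ 2 = X := by
    rw [← Real.exp_nat_mul, ← hXe]
    congr 1
    push_cast
    ring
  have hR : 1000 ≤ Real.exp (L / 2) := by
    have h1 := numeric hL
    have h2 : Real.exp (L / 6) ≤ Real.exp (L / 2) := Real.exp_le_exp.2 (by linarith)
    nlinarith
  have hu8 : 8 ≤ u := by
    have : (8 : ℝ) ≤ u := by linarith
    exact_mod_cast this
  have hu3 : Real.exp (L / 2) / 2 ≤ ((u - 3 : ℕ) : ℝ) := by
    rw [Nat.cast_sub (by omega)]
    push_cast
    linarith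
  have hX2 : Real.exp (L / 2) / 2 ≤ ((X - X / 2 : ℕ) : ℝ) := by
    have h1 : X / 2 ≤ X := Nat.div_le_self _ _
    rw [Nat.cast_sub h1]
    have h2 : ((X / 2 : ℕ) : ℝ) ≤ X / 2 := Nat.cast_div_le
    have h3 : Real.exp (L / 2) ≤ X := by rw [← hsq]; nlinarith
    linarith
  have hE0 : (0 : ℝ) < Real.exp (L / 2) / 2 := by positivity
  have t2 : L ^ 2 / ((u - 3 : ℕ) : ℝ) ≤ L ^ 2 / (Real.exp (L / 2) / 2) :=
    div_le_div_of_nonneg_left (by positivity) hE0 hu3
  have t3 : L ^ 2 / ((X - X / 2 : ℕ) : ℝ) ≤ L ^ 2 / (Real.exp (L / 2) / 2) :=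
    div_le_div_of_nonneg_left (by positivity) hE0 hX2
  have t4 : L ^ 2 / (Real.exp (L / 2) / 2) ≤ Real.exp (-(L / 3)) / 4 := by
    have h1 := numeric hL
    have e11 : Real.exp (L / 2) = Real.exp (L / 6) * Real.exp (L / 3) := by rw [← Real.exp_add]; congr 1; ring
    have e12 : Real.exp (-(L / 3)) * Real.exp (L / 3) = 1 := by rw [← Real.exp_add]; simp
    rw [div_le_iff₀ hE0, e11]
    have e13 : Real.exp (-(L / 3)) / 4 * (Real.exp (L / 6) * Real.exp (L / 3) / 2) =
        Real.exp (L / 6) / 8 * (Real.exp (-(L / 3)) * Real.exp (L / 3)) := by ring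
    rw [e13, e12]
    linarith
  have t5 : Real.exp (-L) ≤ Real.exp (-(L / 3)) / 2 := by
    have e14 : Real.exp (-L) = Real.exp (-(L / 3)) * Real.exp (-(2 * L / 3)) := by rw [← Real.exp_add]; congr 1; ring
    have h2 : Real.exp (-(2 * L / 3)) ≤ 1 / 2 := by
      rw [Real.exp_neg, ← one_div]
      apply one_div_le_one_div_of_le (by norm_num)
      have := Real.add_one_le_exp (2 * L / 3)
      linarith
    rw [e14]
    have := Real.exp_pos (-(L / 3))
    nlinarith
  have := Real.exp_pos (-(L / 3))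
  linarith

/-- For every large `X` and all `k ≥ 2` with `48 log X ≤ X ^ (1 / k)`: independence of order `2 k - 1` and a gap of
length `X ^ (1 / k) / 240` up to `X`. -/
theorem finite_gap (X : ℕ) (hX : 1000 ≤ Real.log X) (k : ℕ) (hk : 2 ≤ k) (hw : 48 * Real.log X ≤ (X : ℝ) ^ (1 / (k : ℝ))) :
    ∃ (Ω : Type) (_ : MeasurableSpace Ω) (P : Measure Ω) (E : ℕ → Set Ω), IsProbabilityMeasure P ∧
      (∀ Y, IsRandomSet P (2 * k - 1) Y E) ∧
        P.real {ω | ¬ HasGap E X ((X : ℝ) ^ (1 / (k : ℝ)) / 240) ω} ≤ Real.exp (-(Real.log X / 3)) := by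
  set L := Real.log X with hLdef
  set w := (X : ℝ) ^ (1 / (k : ℝ)) with hwdef
  have hX0' : X ≠ 0 := by
    rintro rfl
    simp at hLdef
    linarith
  have hX0 : (0 : ℝ) < X := by exact_mod_cast Nat.pos_of_ne_zero hX0'
  have hXe : Real.exp L = X := Real.exp_log hX0
  have hsq : Real.exp (L / 2) ^ 2 = X := by
    rw [← Real.exp_nat_mul, ← hXe]
    congr 1
    push_cast
    ring
  have hR : 1000 ≤ Real.exp (L / 2) := by
    have h1 := numeric hX
    have h2 : Real.exp (L / 6) ≤ Real.exp (L / 2) := Real.exp_le_exp.2 (by linarith)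
    nlinarith
  have hX3 : 3 ≤ X := by
    have : (3 : ℝ) ≤ X := by rw [← hsq]; nlinarith
    exact_mod_cast this
  have hsX : Real.exp (L / 2) ≤ ((Nat.sqrt X + 1 : ℕ) : ℝ) := by
    have h4 : X < (Nat.sqrt X + 1) ^ 2 := by rw [sq]; exact Nat.lt_succ_sqrt X
    have h5 : (X : ℝ) < (((Nat.sqrt X + 1 : ℕ)) : ℝ) ^ 2 := by exact_mod_cast h4
    rw [← hsq] at h5
    exact (lt_of_pow_lt_pow_left₀ 2 (Nat.cast_nonneg _) h5).le
  set g : ℕ := ⌊L / 4⌋₊ with hgdef
  set G : ℕ := ⌊w / (24 * L)⌋₊ with hGdef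
  have hg1 : (g : ℝ) ≤ L / 4 := Nat.floor_le (by linarith)
  have hg2 : L / 5 ≤ g := by
    have : L / 4 < g + 1 := Nat.lt_floor_add_one _
    linarith
  have hG1 : (G : ℝ) ≤ w / (24 * L) := Nat.floor_le (by positivity)
  have hwL : 2 ≤ w / (24 * L) := by
    rw [le_div_iff₀ (by linarith)]
    linarith
  have hG2 : w / (48 * L) ≤ G := by
    have h1 : w / (24 * L) < G + 1 := Nat.lt_floor_add_one _
    have e : w / (24 * L) = 2 * (w / (48 * L)) := by field_simp; ring
    rw [e] at h1 hwL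
    linarith
  have hG1' : 1 ≤ G := by
    have h0 : 0 < w := by linarith
    have h1 : (0 : ℝ) < G := lt_of_lt_of_le (by positivity) hG2
    exact_mod_cast h1
  have hg1' : 1 ≤ g := by
    have h1 : (0 : ℝ) < g := by linarith
    exact_mod_cast h1
  have hwk : w ^ k = X := by
    rw [hwdef, one_div]
    exact Real.rpow_inv_natCast_pow hX0.le (by omega)
  have hw2 : w ≤ Real.exp (L / 2) := by
    rw [hwdef, Real.rpow_def_of_pos hX0]
    apply Real.exp_le_exp.2
    have h2 : (1 : ℝ) / k ≤ 1 / 2 := one_div_le_one_div_of_le (by norm_num) (by exact_mod_cast hk)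
    nlinarith
  have hw0 : 0 < w := by linarith
  obtain ⟨Ω, mΩ, P, E, Z, h1, h2, h3, -, h5⟩ := system (τ := fun n => if n < Nat.sqrt X + 1 then 0 else 1)
    (gf := fun t => if t = 0 then 1 else g) (Gf := fun t => if t = 0 then 1 else G) (k - 1) (by omega)
    (fun t => by split_ifs <;> omega) (fun t => by split_ifs <;> omega) (fun n hn => by
      by_cases hn' : n < Nat.sqrt X + 1
      · simp only [if_pos hn', if_true, Nat.cast_one, mul_one]
        exact two_le_log hn
      · simp only [if_neg hn', one_ne_zero, if_false]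
        have a1 : Real.exp (L / 2) ≤ n := hsX.trans (by exact_mod_cast not_lt.1 hn')
        have a2 : L / 2 ≤ Real.log n := by
          rw [← Real.log_exp (L / 2)]
          exact Real.log_le_log (Real.exp_pos _) a1
        linarith)
  have hk1 : 2 * (k - 1) + 1 = 2 * k - 1 := by omega
  rw [hk1] at h2
  refine ⟨Ω, mΩ, P, E, h1, h2, ?_⟩
  set H : ℕ := g * G with hHdef
  have hHr : (H : ℝ) = g * G := by rw [hHdef]; push_cast; rfl
  have hH2 : 2 ≤ H := by
    have a1 : 2 ≤ g := by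
      have : (2 : ℝ) ≤ g := by linarith
      exact_mod_cast this
    calc 2 = 2 * 1 := rfl
      _ ≤ g * G := Nat.mul_le_mul a1 hG1'
  have hHw : (H : ℝ) ≤ w / 96 := by
    rw [hHr]
    calc (g : ℝ) * G ≤ (L / 4) * (w / (24 * L)) := mul_le_mul hg1 hG1 (by positivity) (by linarith)
      _ = w / 96 := by field_simp; ring
  have hwH : w / 240 ≤ H := by
    rw [hHr]
    calc w / 240 = (L / 5) * (w / (48 * L)) := by field_simp; ring
      _ ≤ (g : ℝ) * G := mul_le_mul hg2 hG2 (by positivity) (by positivity)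
  have hH0 : (0 : ℝ) < H := by
    have : 0 < H := by omega
    exact_mod_cast this
  have hG0 : (0 : ℝ) < G := by exact_mod_cast hG1'
  have hg0 : (0 : ℝ) < g := by exact_mod_cast hg1'
  have key := window_prob (P := P) (E := E) (Z := Z) (τ := fun n => if n < Nat.sqrt X + 1 then 0 else 1) (K := 2 * k - 1)
    (r := k - 1) (G := (G : ℝ)) (t := 1) (H := H) (X := X) (u := Nat.sqrt X + 1) (v := X / 2)
    (fun ω l n hZ hτ hl h8 => h5 ω 1 l n hZ hτ (by simpa using hl) (by simpa using h8))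
    (fun J => by simpa using h3 1 J) (by omega) hX3 (h2 X) hH2 (by
      have : (8 : ℝ) ≤ ((Nat.sqrt X + 1 : ℕ) : ℝ) := by linarith
      exact_mod_cast this) le_rfl (fun n hn1 _ => if_neg (by omega))
  have hmono : P.real {ω | ¬ HasGap E X (w / 240) ω} ≤ P.real {ω | ¬ HasGap E X ((H : ℝ) + 1) ω} := by
    refine measureReal_mono ?_ (measure_ne_top _ _)
    intro ω hω hg
    exact hω (hg.mono le_rfl (by linarith))
  refine hmono.trans (key.trans (le_trans (add_le_add ?_ le_rfl) (three_terms hX hsX)))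
  apply Real.exp_le_exp.2
  rw [neg_le_neg_iff]
  -- the number of blocks
  have hvu : (X : ℝ) / 5 ≤ ((X / 2 : ℕ) : ℝ) - ((Nat.sqrt X + 1 : ℕ) : ℝ) := by
    have h4 : (Nat.sqrt X) ^ 2 ≤ X := Nat.sqrt_le' X
    have h5 : ((Nat.sqrt X : ℕ) : ℝ) ^ 2 ≤ Real.exp (L / 2) ^ 2 := by rw [hsq]; exact_mod_cast h4
    have h6 := (pow_le_pow_iff_left₀ (by positivity) (Real.exp_pos _).le (by norm_num : (2 : ℕ) ≠ 0)).1 h5
    have h7 : (X : ℝ) ≤ 2 * ((X / 2 : ℕ) : ℝ) + 1 := by
      have : X ≤ 2 * (X / 2) + 1 := by omega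
      exact_mod_cast this
    have h8 : Real.exp (L / 2) * 1000 ≤ X := by
      conv_rhs => rw [← hsq]
      nlinarith
    push_cast
    linarith
  have hcb := count_blocks (H := H) (u := Nat.sqrt X + 1) (v := X / 2) (by omega)
  have h2Hs : 2 * (H : ℝ) ≤ X / 40 := by
    have b1 : w ≤ X / 40 := by
      refine hw2.trans ?_
      rw [← hsq]
      nlinarith
    linarith
  have e7 : (X : ℝ) / (8 * H) ≤ ((X / 2 / H - ((Nat.sqrt X + 1) / H + 1) : ℕ) : ℝ) := by
    refine le_trans ?_ hcb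
    have b2 : (((X / 2 : ℕ) : ℝ) - ((Nat.sqrt X + 1 : ℕ) : ℝ)) / H - 2 =
        ((((X / 2 : ℕ) : ℝ) - ((Nat.sqrt X + 1 : ℕ) : ℝ)) - 2 * H) / H := by field_simp
    rw [b2, div_le_div_iff₀ (by positivity) hH0]
    nlinarith
  have hpow : (2 * (G : ℝ)) ^ k ≤ X / (12 * L) ^ 2 := by
    calc (2 * (G : ℝ)) ^ k ≤ (w / (12 * L)) ^ k := by
          refine pow_le_pow_left₀ (by positivity) ?_ _
          have e : w / (12 * L) = 2 * (w / (24 * L)) := by field_simp; ring
          rw [e]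
          linarith
      _ = X / (12 * L) ^ k := by rw [div_pow, hwk]
      _ ≤ X / (12 * L) ^ 2 := by
          refine div_le_div_of_nonneg_left hX0.le (by positivity) ?_
          exact pow_le_pow_right₀ (by linarith) hk
  rw [le_div_iff₀ (by positivity)]
  refine le_trans ?_ e7
  rw [le_div_iff₀ (by positivity)]
  have e9 : (2 * (G : ℝ)) ^ k = (2 * (G : ℝ)) ^ (k - 1) * (2 * G) := by
    rw [← pow_succ]
    congr 1
    omega
  have e10 : L * (2 * (2 * (G : ℝ)) ^ (k - 1)) * (8 * H) = 8 * L * g * (2 * (G : ℝ)) ^ k := by rw [e9, hHr]; ring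
  rw [e10]
  calc 8 * L * g * (2 * (G : ℝ)) ^ k ≤ 8 * L * (L / 4) * (X / (12 * L) ^ 2) := by
        refine mul_le_mul ?_ hpow (by positivity) (by positivity)
        exact mul_le_mul_of_nonneg_left hg1 (by positivity)
    _ = X / 72 := by field_simp; ring
    _ ≤ X := by linarith

end Pool.Agent.H453.LI
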