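import Pool.Agent.H453.LI.Model

/-!
# Random sets with independence of order `2 r + 1`: random codewords on blocks of groups

The integers are divided into groups. A group is either empty, if the bit of the group in the codeword of its block is `0`, or
it has, if the bit is `1`, the distribution which makes the total distribution in the group equal to that of Cramer's model.
-/

namespace Pool.Agent.H453.LI

open Finset MeasureTheory
open scoped ENNReal
open Pool.Agent.Q51.LI (Co unif unif_apply card_Co bern bern_true pr pr_mem IsRandomSet HasGap void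
  void_pairwise gap_of_blocks)

/-- Cramer's model: independent truth values, the value at `n` is true with probability `1 / log n` -/
noncomputable def mu : Measure (ℕ → Bool) := Measure.infinitePi fun n => bern (pr n)

instance : IsProbabilityMeasure mu := by unfold mu; infer_instance

/-- all values at the places of `S` are true -/
def allT (S : Finset ℕ) : Set (ℕ → Bool) := {η | ∀ n ∈ S, η n = true}

lemma measurable_allT (S : Finset ℕ) : MeasurableSet (allT S) := by
  have : allT S = ⋂ n ∈ S, (fun η : ℕ → Bool => η n) ⁻¹' {true} := by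
    ext η
    simp [allT]
  rw [this]
  exact Finset.measurableSet_biInter S fun n _ => measurable_pi_apply n (measurableSet_singleton true)

lemma mu_allT (S : Finset ℕ) (hS : ∀ n ∈ S, 3 ≤ n) : mu (allT S) = ENNReal.ofReal (∏ n ∈ S, 1 / Real.log n) := by
  have hset : allT S = Set.pi S fun _ => ({true} : Set Bool) := by
    ext η
    simp [allT, Set.mem_pi]
  have h2 : ∀ n ∈ S, bern (pr n) {true} = ENNReal.ofReal (pr n) := fun n hn =>
    bern_true (pr_mem (hS n hn)).1.le (pr_mem (hS n hn)).2.le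
  rw [hset, mu, Measure.infinitePi_pi _ (fun _ _ => measurableSet_singleton true), prod_congr rfl h2,
    ← ENNReal.ofReal_prod_of_nonneg (fun n hn => (pr_mem (hS n hn)).1.le)]
  rfl

/-- some value at the places of `G` is true -/
def someT (G : Finset ℕ) : Set (ℕ → Bool) := {η | ∃ n ∈ G, η n = true}

lemma someT_eq (G : Finset ℕ) : someT G = ⋃ n ∈ G, allT {n} := by
  ext η
  simp [someT, allT]

lemma measurable_someT (G : Finset ℕ) : MeasurableSet (someT G) := by
  rw [someT_eq]
  exact Finset.measurableSet_biUnion G fun n _ => measurable_allT {n}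

lemma mu_someT (G : Finset ℕ) (hG : ∀ n ∈ G, 3 ≤ n) : mu.real (someT G) ≤ ∑ n ∈ G, 1 / Real.log n := by
  rw [someT_eq]
  refine (measureReal_biUnion_finset_le _ _).trans (sum_le_sum fun n hn => ?_)
  unfold Measure.real
  rw [mu_allT {n} (by simpa using hG n hn), prod_singleton, ENNReal.toReal_ofReal]
  exact (pr_mem (hG n hn)).1.le

/-- the conditional distribution of a group whose bit is `1` -/
noncomputable def nu (G : Finset ℕ) : Measure (ℕ → Bool) :=
  (2 : ℝ≥0∞) • mu.restrict (someT G) + ENNReal.ofReal (1 - 2 * mu.real (someT G)) • Measure.dirac (fun _ => false)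

lemma nu_prob (G : Finset ℕ) (h : mu.real (someT G) ≤ 1 / 2) : IsProbabilityMeasure (nu G) := by
  constructor
  unfold nu
  simp only [Measure.coe_add, Measure.coe_smul, Pi.add_apply, Pi.smul_apply, measure_univ, smul_eq_mul, mul_one,
    Measure.restrict_apply_univ]
  have h1 : mu (someT G) = ENNReal.ofReal (mu.real (someT G)) := by
    rw [ofReal_measureReal]
  have h2 : (2 : ℝ≥0∞) = ENNReal.ofReal 2 := by norm_num
  rw [h1, h2, ← ENNReal.ofReal_mul (by norm_num), ← ENNReal.ofReal_add (by positivity) (by linarith)]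
  rw [show 2 * mu.real (someT G) + (1 - 2 * mu.real (someT G)) = 1 by ring, ENNReal.ofReal_one]

lemma nu_allT (G S : Finset ℕ) (hS : S.Nonempty) (hSG : S ⊆ G) : nu G (allT S) = 2 * mu (allT S) := by
  obtain ⟨n, hn⟩ := hS
  have h1 : allT S ∩ someT G = allT S := by
    refine Set.inter_eq_left.2 fun η hη => ⟨n, hSG hn, hη n hn⟩
  have h2 : (fun _ : ℕ => false) ∉ allT S := fun h => Bool.false_ne_true (h n hn)
  unfold nu
  simp only [Measure.coe_add, Measure.coe_smul, Pi.add_apply, Pi.smul_apply, smul_eq_mul]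
  rw [Measure.restrict_apply (measurable_allT S), h1, Measure.dirac_apply' _ (measurable_allT S),
    Set.indicator_of_notMem h2, mul_zero, add_zero]

/-- the distribution of a group: `free` groups do not depend on the codeword -/
noncomputable def law (G : Finset ℕ) (free : Prop) [Decidable free] : Measure (ℕ → Bool) :=
  open scoped Classical in if ¬ free ∧ mu.real (someT G) ≤ 1 / 2 then nu G else mu

instance (G : Finset ℕ) (free : Prop) [Decidable free] : IsProbabilityMeasure (law G free) := by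
  unfold law
  split_ifs with h
  · exact nu_prob G h.2
  · infer_instance

section

variable (dd : ℕ → ℕ) (W : ∀ j : ℕ, ℕ → (Fin (dd j) → ZMod 2)) (bl po grp : ℕ → ℕ) (LL : ℕ → Finset (ZMod 2))
  (la : ℕ → Measure (ℕ → Bool)) [∀ γ, IsProbabilityMeasure (la γ)]

/-- codewords for all blocks and truth values for all groups and integers -/
abbrev Om2 : Type := (∀ j : ℕ, Co (dd j) 2) × (ℕ → ℕ → Bool)

/-- the probability measure: everything is independent, the codewords are uniformly distributed -/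
noncomputable def Pm2 : Measure (Om2 dd) :=
  (Measure.infinitePi fun j => unif (dd j) 2).prod (Measure.infinitePi la)

instance : IsProbabilityMeasure (Pm2 dd la) := by unfold Pm2; infer_instance

/-- the event `n ∈ A` -/
def Ev2 (n : ℕ) : Set (Om2 dd) :=
  {ω | W (bl (grp n)) (po (grp n)) ⬝ᵥ (show Fin (dd (bl (grp n))) → ZMod 2 from ω.1 (bl (grp n))) ∈ LL (grp n) ∧
    ω.2 (grp n) n = true}

lemma measurable_Ev2 (n : ℕ) : MeasurableSet (Ev2 dd W bl po grp LL n) := by
  have h1 : MeasurableSet ((fun ω : Om2 dd => ω.1 (bl (grp n))) ⁻¹'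
      {c : Co (dd (bl (grp n))) 2 | W (bl (grp n)) (po (grp n)) ⬝ᵥ
        (show Fin (dd (bl (grp n))) → ZMod 2 from c) ∈ LL (grp n)}) :=
    ((measurable_pi_apply _).comp measurable_fst) trivial
  have h2 : MeasurableSet ((fun ω : Om2 dd => ω.2 (grp n) n) ⁻¹' {true}) :=
    ((measurable_pi_apply _).comp ((measurable_pi_apply _).comp measurable_snd)) trivial
  exact h1.inter h2

variable {dd W bl po grp LL la}

/-- **Any at most `K` of the events are independent.** -/
theorem model_indep2 {K : ℕ}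
    (hW : ∀ (j : ℕ) (S : Finset ℕ), (∀ γ ∈ S, bl γ = j) → S.card ≤ K →
      LinearIndependent (ZMod 2) (fun γ : S => W j (po γ)))
    (hla : ∀ (γ : ℕ) (S : Finset ℕ), S.Nonempty → (∀ n ∈ S, 3 ≤ n ∧ grp n = γ) →
      ENNReal.ofReal (((LL γ).card : ℝ) / 2) * la γ (allT S) = ENNReal.ofReal (∏ n ∈ S, 1 / Real.log n))
    (S : Finset ℕ) (hS : ∀ n ∈ S, 3 ≤ n) (hc : S.card ≤ K) :
    Pm2 dd la (⋂ n ∈ S, Ev2 dd W bl po grp LL n) = ENNReal.ofReal (∏ n ∈ S, 1 / Real.log n) := by
  classical
  set Γ := S.image grp with hΓ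
  have hΓc : Γ.card ≤ K := card_image_le.trans hc
  set T : ∀ j, Finset (Co (dd j) 2) := fun j => univ.filter fun c =>
    ∀ γ ∈ Γ.filter (fun γ => bl γ = j), W j (po γ) ⬝ᵥ (show Fin (dd j) → ZMod 2 from c) ∈ LL γ with hT
  have hset : (⋂ n ∈ S, Ev2 dd W bl po grp LL n) =
      (Set.pi (Γ.image bl) fun j => (T j : Set (Co (dd j) 2))) ×ˢ
        (Set.pi Γ fun γ => allT (S.filter fun n => grp n = γ)) := by
    ext ω
    simp only [Set.mem_iInter, Ev2, Set.mem_ofPred_eq, Set.mem_prod, Set.mem_pi, coe_image, Set.mem_image, mem_coe,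
      hT, mem_filter, mem_univ, true_and, coe_filter, allT, hΓ, mem_image]
    constructor
    · intro h
      refine ⟨?_, ?_⟩
      · rintro j - γ ⟨⟨n, hn, rfl⟩, rfl⟩
        exact (h n hn).1
      · rintro γ ⟨n, hn, rfl⟩ m ⟨hm, hmn⟩
        rw [← hmn]
        exact (h m hm).2
    · rintro ⟨h1, h2⟩ n hn
      exact ⟨h1 (bl (grp n)) ⟨grp n, ⟨n, hn, rfl⟩, rfl⟩ (grp n) ⟨⟨n, hn, rfl⟩, rfl⟩,
        h2 (grp n) ⟨n, hn, rfl⟩ n ⟨hn, rfl⟩⟩
  have h1 : ∀ j ∈ Γ.image bl, unif (dd j) 2 (T j : Set (Co (dd j) 2)) =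
      ∏ γ ∈ Γ.filter (fun γ => bl γ = j), ENNReal.ofReal (((LL γ).card : ℝ) / 2) := by
    intro j _
    rw [unif_apply, ← ENNReal.ofReal_prod_of_nonneg (fun γ _ => by positivity)]
    congr 1
    have hc' : (Γ.filter (fun γ => bl γ = j)).card ≤ K := (card_filter_le _ _).trans hΓc
    have key := count_code (fun γ => W j (po γ)) (Γ.filter (fun γ => bl γ = j))
      (hW j _ (fun γ hγ => (mem_filter.1 hγ).2) hc') LL
    rw [prod_div_distrib, prod_const, div_eq_div_iff (by positivity) (by positivity)]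
    have key' : ((T j).card : ℝ) * 2 ^ (Γ.filter (fun γ => bl γ = j)).card =
        2 ^ (dd j) * ∏ γ ∈ Γ.filter (fun γ => bl γ = j), ((LL γ).card : ℝ) := by
      exact_mod_cast key
    push_cast
    rw [key']
    ring
  have m1 : ∀ j ∈ Γ.image bl, MeasurableSet ((T j : Set (Co (dd j) 2))) := fun j _ => trivial
  have m2 : ∀ γ ∈ Γ, MeasurableSet (allT (S.filter fun n => grp n = γ)) := fun _ _ => measurable_allT _
  rw [hset, Pm2, Measure.prod_prod, Measure.infinitePi_pi _ m1, Measure.infinitePi_pi _ m2,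
    prod_congr rfl h1, prod_fiberwise_of_maps_to (fun γ hγ => mem_image_of_mem _ hγ), ← prod_mul_distrib]
  have h3 : ∀ γ ∈ Γ, ENNReal.ofReal (((LL γ).card : ℝ) / 2) * la γ (allT (S.filter fun n => grp n = γ)) =
      ENNReal.ofReal (∏ n ∈ S.filter (fun n => grp n = γ), 1 / Real.log n) := by
    intro γ hγ
    rw [hΓ, mem_image] at hγ
    obtain ⟨n, hn, hnγ⟩ := hγ
    refine hla γ _ ⟨n, mem_filter.2 ⟨hn, hnγ⟩⟩ fun m hm => ?_
    rw [mem_filter] at hm
    exact ⟨hS m hm.1, hm.2⟩
  rw [prod_congr rfl h3, ← ENNReal.ofReal_prod_of_nonneg]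
  · rw [prod_fiberwise_of_maps_to (fun n hn => mem_image_of_mem _ hn)]
  · intro γ _
    refine prod_nonneg fun n hn => ?_
    exact (pr_mem (hS n (mem_filter.1 hn).1)).1.le

lemma silent_void2 {ω : Om2 dd} {n : ℕ} (hn : LL (grp n) = {1}) (h : ω.1 (bl (grp n)) = zw (dd (bl (grp n)))) :
    ω ∉ Ev2 dd W bl po grp LL n := by
  intro hE
  have h1 := hE.1
  rw [h] at h1
  have h2 : W (bl (grp n)) (po (grp n)) ⬝ᵥ (show Fin (dd (bl (grp n))) → ZMod 2 from zw (dd (bl (grp n)))) = 0 :=
    dotProduct_zero _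
  rw [h2, hn, mem_singleton] at h1
  exact zero_ne_one h1

/-- The probability that no block of `J` is silent. -/
theorem no_silent2_eq (J : Finset ℕ) :
    (Pm2 dd la) {ω | ∀ j ∈ J, ω.1 j ≠ zw (dd j)} = ENNReal.ofReal (∏ j ∈ J, (1 - 1 / (2 : ℝ) ^ (dd j))) := by
  classical
  have hset : {ω : Om2 dd | ∀ j ∈ J, ω.1 j ≠ zw (dd j)} =
      (Set.pi J fun j => ((({zw (dd j)} : Finset (Co (dd j) 2))ᶜ : Finset (Co (dd j) 2)) : Set (Co (dd j) 2))) ×ˢ
        (Set.univ : Set (ℕ → ℕ → Bool)) := by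
    ext ω
    simp [Set.mem_pi]
  have m1 : ∀ j ∈ J, MeasurableSet (((({zw (dd j)} : Finset (Co (dd j) 2))ᶜ : Finset (Co (dd j) 2)) : Set (Co (dd j) 2))) :=
    fun j _ => trivial
  have hval : ∀ j ∈ J, unif (dd j) 2 (((({zw (dd j)} : Finset (Co (dd j) 2))ᶜ : Finset (Co (dd j) 2)) : Set (Co (dd j) 2))) =
      ENNReal.ofReal (1 - 1 / (2 : ℝ) ^ (dd j)) := by
    intro j _
    rw [unif_apply, card_compl, card_Co, card_singleton]
    congr 1
    rw [Nat.cast_sub (Nat.one_le_two_pow), Nat.cast_pow, sub_div]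
    push_cast
    rw [div_self (by positivity)]
  have h01 : ∀ j ∈ J, 0 ≤ 1 - 1 / (2 : ℝ) ^ (dd j) := by
    intro j _
    rw [sub_nonneg, div_le_one (by positivity)]
    exact one_le_pow₀ (by norm_num)
  rw [hset, Pm2, Measure.prod_prod, Measure.infinitePi_pi _ m1, prod_congr rfl hval, measure_univ, mul_one,
    ← ENNReal.ofReal_prod_of_nonneg h01]

theorem no_silent2 (J : Finset ℕ) :
    (Pm2 dd la).real {ω | ∀ j ∈ J, ω.1 j ≠ zw (dd j)} ≤ Real.exp (-∑ j ∈ J, 1 / (2 : ℝ) ^ (dd j)) := by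
  have h01 : ∀ j ∈ J, 0 ≤ 1 - 1 / (2 : ℝ) ^ (dd j) := by
    intro j _
    rw [sub_nonneg, div_le_one (by positivity)]
    exact one_le_pow₀ (by norm_num)
  unfold Measure.real
  rw [no_silent2_eq, ENNReal.toReal_ofReal (prod_nonneg h01), ← sum_neg_distrib, Real.exp_sum]
  refine prod_le_prod h01 fun j _ => ?_
  have := Real.add_one_le_exp (-(1 / (2 : ℝ) ^ (dd j)))
  linarith

theorem isRandomSet_model2 {K : ℕ}
    (hW : ∀ (j : ℕ) (S : Finset ℕ), (∀ γ ∈ S, bl γ = j) → S.card ≤ K →
      LinearIndependent (ZMod 2) (fun γ : S => W j (po γ)))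
    (hla : ∀ (γ : ℕ) (S : Finset ℕ), S.Nonempty → (∀ n ∈ S, 3 ≤ n ∧ grp n = γ) →
      ENNReal.ofReal (((LL γ).card : ℝ) / 2) * la γ (allT S) = ENNReal.ofReal (∏ n ∈ S, 1 / Real.log n))
    (X : ℕ) : IsRandomSet (Pm2 dd la) K X (Ev2 dd W bl po grp LL) :=
  ⟨fun n _ => measurable_Ev2 dd W bl po grp LL n, fun S hS hc =>
    model_indep2 hW hla S (fun n hn => (mem_Icc.1 (hS hn)).1) hc⟩

end

end Pool.Agent.H453.LI
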