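import Pool.Agent.H453.LI.BCH

/-!
# Random sets with independence of order `2 r + 1`: random codewords on blocks
-/

namespace Pool.Agent.H453.LI

open Finset MeasureTheory
open Pool.Agent.Q51.LI (Co unif unif_apply card_Co bern bern_true rr rr_mem rr_mul Lset card_Lset IsRandomSet HasGap void
  void_pairwise gap_of_blocks)

/-- the values which are allowed at the place `n` -/
def L2 (n : ℕ) : Finset (ZMod 2) := if n < 8 then univ else {1}

lemma card_L2 (n : ℕ) : (L2 n).card = (Lset n 2).card := by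
  rw [card_Lset]
  unfold L2
  split_ifs with h
  · rw [card_univ, ZMod.card]
  · rw [card_singleton]

section

variable (dd : ℕ → ℕ) (W : ∀ j : ℕ, ℕ → (Fin (dd j) → ZMod 2)) (blk pos : ℕ → ℕ)

/-- codewords for all blocks and truth values for all integers -/
abbrev Om : Type := (∀ j : ℕ, Co (dd j) 2) × (ℕ → Bool)

/-- the probability measure: everything is independent, the codewords are uniformly distributed -/
noncomputable def Pm : Measure (Om dd) :=
  (Measure.infinitePi fun j => unif (dd j) 2).prod (Measure.infinitePi fun n => bern (rr n 2))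

instance : IsProbabilityMeasure (Pm dd) := by unfold Pm; infer_instance

/-- the event `n ∈ A` -/
def Ev (n : ℕ) : Set (Om dd) :=
  {ω | W (blk n) (pos n) ⬝ᵥ (show Fin (dd (blk n)) → ZMod 2 from ω.1 (blk n)) ∈ L2 n ∧ ω.2 n = true}

lemma measurable_Ev (n : ℕ) : MeasurableSet (Ev dd W blk pos n) := by
  have h1 : MeasurableSet ((fun ω : Om dd => ω.1 (blk n)) ⁻¹'
      {c : Co (dd (blk n)) 2 | W (blk n) (pos n) ⬝ᵥ (show Fin (dd (blk n)) → ZMod 2 from c) ∈ L2 n}) :=
    ((measurable_pi_apply _).comp measurable_fst) trivial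
  have h2 : MeasurableSet ((fun ω : Om dd => ω.2 n) ⁻¹' {true}) :=
    ((measurable_pi_apply _).comp measurable_snd) trivial
  exact h1.inter h2

variable {dd W blk pos}

/-- **Any at most `K` of the events are independent.** -/
theorem model_indep {K : ℕ}
    (hW : ∀ (j : ℕ) (S : Finset ℕ), (∀ n ∈ S, blk n = j) → S.card ≤ K →
      LinearIndependent (ZMod 2) (fun n : S => W j (pos n)))
    (S : Finset ℕ) (hS : ∀ n ∈ S, 3 ≤ n) (hc : S.card ≤ K) :
    Pm dd (⋂ n ∈ S, Ev dd W blk pos n) = ENNReal.ofReal (∏ n ∈ S, 1 / Real.log n) := by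
  classical
  set T : ∀ j, Finset (Co (dd j) 2) := fun j => univ.filter fun c =>
    ∀ n ∈ S.filter (fun n => blk n = j), W j (pos n) ⬝ᵥ (show Fin (dd j) → ZMod 2 from c) ∈ L2 n with hT
  have hset : (⋂ n ∈ S, Ev dd W blk pos n) =
      (Set.pi (S.image blk) fun j => (T j : Set (Co (dd j) 2))) ×ˢ (Set.pi S fun _ => ({true} : Set Bool)) := by
    ext ω
    simp only [Set.mem_iInter, Ev, Set.mem_ofPred_eq, Set.mem_prod, Set.mem_pi, coe_image, Set.mem_image, mem_coe,
      Set.mem_singleton_iff, hT, mem_filter, mem_univ, true_and, coe_filter]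
    constructor
    · intro h
      refine ⟨?_, fun n hn => (h n hn).2⟩
      rintro j - n ⟨hn, rfl⟩
      exact (h n hn).1
    · rintro ⟨h1, h2⟩ n hn
      exact ⟨h1 (blk n) ⟨n, hn, rfl⟩ n ⟨hn, rfl⟩, h2 n hn⟩
  have h1 : ∀ j ∈ S.image blk, unif (dd j) 2 (T j : Set (Co (dd j) 2)) =
      ENNReal.ofReal (∏ n ∈ S.filter (fun n => blk n = j), ((Lset n 2).card : ℝ) / ((2 : ℕ) : ℝ)) := by
    intro j _
    rw [unif_apply]
    congr 1
    have hc' : (S.filter (fun n => blk n = j)).card ≤ K := (card_filter_le _ _).trans hc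
    have key := count_code (fun n => W j (pos n)) (S.filter (fun n => blk n = j))
      (hW j _ (fun n hn => (mem_filter.1 hn).2) hc') L2
    rw [prod_div_distrib, prod_const, div_eq_div_iff (by positivity) (by positivity)]
    have key' : ((T j).card : ℝ) * 2 ^ (S.filter (fun n => blk n = j)).card =
        2 ^ (dd j) * ∏ n ∈ S.filter (fun n => blk n = j), ((L2 n).card : ℝ) := by
      exact_mod_cast key
    push_cast
    rw [key', prod_congr rfl fun n _ => by rw [card_L2 n]]
    ring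
  have h2 : ∀ n ∈ S, bern (rr n 2) {true} = ENNReal.ofReal (rr n 2) := fun n hn =>
    bern_true (rr_mem (hS n hn) _).1 (rr_mem (hS n hn) _).2
  have m1 : ∀ j ∈ S.image blk, MeasurableSet ((T j : Set (Co (dd j) 2))) := fun j _ => trivial
  have m2 : ∀ n ∈ S, MeasurableSet ({true} : Set Bool) := fun _ _ => trivial
  rw [hset, Pm, Measure.prod_prod, Measure.infinitePi_pi _ m1, Measure.infinitePi_pi _ m2,
    prod_congr rfl h1, prod_congr rfl h2, ← ENNReal.ofReal_prod_of_nonneg, ← ENNReal.ofReal_prod_of_nonneg,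
    prod_fiberwise_of_maps_to (fun n hn => mem_image_of_mem _ hn), ← ENNReal.ofReal_mul, ← prod_mul_distrib]
  · congr 1
    exact prod_congr rfl fun n _ => rr_mul n 2
  · exact prod_nonneg fun n _ => by positivity
  · exact fun n hn => (rr_mem (hS n hn) _).1
  · exact fun j _ => prod_nonneg fun n _ => by positivity

/-- the zero codeword -/
def zw (d : ℕ) : Co d 2 := (show Fin d → ZMod 2 from 0)

lemma silent_void {ω : Om dd} {n : ℕ} (hn : 8 ≤ n) (h : ω.1 (blk n) = zw (dd (blk n))) :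
    ω ∉ Ev dd W blk pos n := by
  intro hE
  have h1 := hE.1
  rw [h] at h1
  have h2 : W (blk n) (pos n) ⬝ᵥ (show Fin (dd (blk n)) → ZMod 2 from zw (dd (blk n))) = 0 :=
    dotProduct_zero _
  rw [h2] at h1
  unfold L2 at h1
  rw [if_neg (by omega), mem_singleton] at h1
  exact zero_ne_one h1

/-- The probability that no block of `J` is silent. -/
theorem no_silent (J : Finset ℕ) :
    (Pm dd).real {ω | ∀ j ∈ J, ω.1 j ≠ zw (dd j)} ≤ Real.exp (-∑ j ∈ J, 1 / (2 : ℝ) ^ (dd j)) := by
  classical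
  have hset : {ω : Om dd | ∀ j ∈ J, ω.1 j ≠ zw (dd j)} =
      (Set.pi J fun j => ((({zw (dd j)} : Finset (Co (dd j) 2))ᶜ : Finset (Co (dd j) 2)) : Set (Co (dd j) 2))) ×ˢ
        (Set.univ : Set (ℕ → Bool)) := by
    ext ω
    simp [Set.mem_pi]
  have m1 : ∀ j ∈ J, MeasurableSet (((({zw (dd j)} : Finset (Co (dd j) 2))ᶜ : Finset (Co (dd j) 2)) : Set (Co (dd j) 2))) :=
    fun j _ => trivial
  have hval : ∀ j ∈ J, unif (dd j) 2 (((({zw (dd j)} : Finset (Co (dd j) 2))ᶜ : Finset (Co (dd j) 2)) : Set (Co (dd j) 2))) =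
      ENNReal.ofReal (1 - 1 / (2 : ℝ) ^ (dd j)) := by
    intro j _
    rw [unif_apply, card_compl, card_Co, card_singleton]
    congr 1
    rw [Nat.cast_sub (Nat.one_le_two_pow), Nat.cast_pow, sub_div]
    push_cast
    rw [div_self (by positivity)]
  have h01 : ∀ j ∈ J, 0 ≤ 1 - 1 / (2 : ℝ) ^ (dd j) := by
    intro j _
    rw [sub_nonneg, div_le_one (by positivity)]
    exact one_le_pow₀ (by norm_num)
  have hmeas : (Pm dd) {ω : Om dd | ∀ j ∈ J, ω.1 j ≠ zw (dd j)} =
      ENNReal.ofReal (∏ j ∈ J, (1 - 1 / (2 : ℝ) ^ (dd j))) := by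
    rw [hset, Pm, Measure.prod_prod, Measure.infinitePi_pi _ m1, prod_congr rfl hval, measure_univ, mul_one,
      ← ENNReal.ofReal_prod_of_nonneg h01]
  unfold Measure.real
  rw [hmeas, ENNReal.toReal_ofReal (prod_nonneg h01), ← sum_neg_distrib, Real.exp_sum]
  refine prod_le_prod h01 fun j _ => ?_
  have := Real.add_one_le_exp (-(1 / (2 : ℝ) ^ (dd j)))
  linarith

theorem isRandomSet_model {K : ℕ}
    (hW : ∀ (j : ℕ) (S : Finset ℕ), (∀ n ∈ S, blk n = j) → S.card ≤ K →
      LinearIndependent (ZMod 2) (fun n : S => W j (pos n)))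
    (X : ℕ) : IsRandomSet (Pm dd) K X (Ev dd W blk pos) :=
  ⟨fun n _ => measurable_Ev dd W blk pos n, fun S hS hc =>
    model_indep hW S (fun n hn => (mem_Icc.1 (hS hn)).1) hc⟩

/-- A silent block gives a gap. -/
theorem gap_model {K r : ℕ} (hk : 2 ≤ K) {X : ℕ} (hX : 3 ≤ X) (hE : IsRandomSet (Pm dd) K X (Ev dd W blk pos))
    (u v H m : ℕ) (code : ℕ → ℕ) (hcode : Function.Injective code) (hblk : ∀ n, u ≤ n → n < v → blk n = code (n / H))
    (hq : ∀ l, dd (code l) = 1 + m * r) (hH : 2 ≤ H) (hQH : 2 ^ m ≤ 2 * H) (hu : 8 ≤ u) (hv : v ≤ X / 2)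
    (hlen : 1 ≤ (v / H : ℕ) - (u / H : ℕ)) :
    (Pm dd).real {ω | ¬ HasGap (Ev dd W blk pos) X ((H : ℝ) + 1) ω} ≤
      Real.exp (-(((v / H : ℕ) : ℝ) - ((u / H : ℕ) : ℝ) - 1) / (2 * (2 * (H : ℝ)) ^ r)) +
        (Real.log X ^ 2 / ((u - 3 : ℕ) : ℝ) + Real.log X ^ 2 / ((X - X / 2 : ℕ) : ℝ)) := by
  classical
  have huv : u < v := by
    by_contra hcon
    have := Nat.div_le_div_right (c := H) (not_lt.1 hcon)
    omega
  set J := (Ico (u / H + 1) (v / H)).image code with hJ
  have hsub : {ω | ¬ HasGap (Ev dd W blk pos) X ((H : ℝ) + 1) ω} ⊆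
      {ω : Om dd | ∀ j ∈ J, ω.1 j ≠ zw (dd j)} ∪
        (void (Ev dd W blk pos) (Ico 3 (3 + (u - 3))) ∪
          void (Ev dd W blk pos) (Ico (X / 2 + 1) (X / 2 + 1 + (X - X / 2)))) := by
    intro ω hω
    by_contra hcon
    simp only [Set.mem_union, not_or] at hcon
    obtain ⟨c1, c2, c3⟩ := hcon
    simp only [Set.mem_ofPred_eq] at c1
    push Not at c1
    obtain ⟨j, hj, hsil⟩ := c1
    simp only [void, Set.mem_ofPred_eq] at c2 c3
    push Not at c2 c3
    obtain ⟨n₁, hn₁, hn₁E⟩ := c2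
    obtain ⟨n₂, hn₂, hn₂E⟩ := c3
    rw [mem_Ico] at hn₁ hn₂
    rw [hJ, mem_image] at hj
    obtain ⟨l, hl, rfl⟩ := hj
    rw [mem_Ico] at hl
    have a1 : u < l * H := by
      have h1 : (u / H + 1) * H ≤ l * H := Nat.mul_le_mul_right _ hl.1
      have h2 : u < (u / H + 1) * H := by
        have := Nat.lt_div_mul_add (a := u) (b := H) (by omega)
        have e : (u / H + 1) * H = u / H * H + H := by ring
        omega
      omega
    have a2 : (l + 1) * H ≤ v := (Nat.mul_le_mul_right _ hl.2).trans (Nat.div_mul_le_self v H)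
    apply hω
    refine gap_of_blocks (Ev dd W blk pos) X (l * H) ((l + 1) * H) ω ⟨n₁, hn₁.1, by omega, hn₁E⟩
      ⟨n₂, by omega, by omega, hn₂E⟩ (Nat.mul_le_mul_right _ (by omega)) ?_ _ ?_
    · intro n h1 h2
      have e1 : n / H = l := by
        rw [Nat.div_eq_iff (by omega)]
        have e : (l + 1) * H = l * H + H := by ring
        omega
      have e2 : blk n = code l := by rw [hblk n (by omega) (by omega), e1]
      refine silent_void (by omega) ?_
      rw [e2]
      exact hsil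
    · push_cast
      linarith
  refine (measureReal_mono hsub (measure_ne_top _ _)).trans ?_
  refine (measureReal_union_le _ _).trans (add_le_add ?_ ((measureReal_union_le _ _).trans (add_le_add ?_ ?_)))
  · refine (no_silent J).trans (Real.exp_le_exp.2 ?_)
    rw [neg_div, neg_le_neg_iff, hJ, sum_image (fun a _ b _ h => hcode h)]
    have hone : ∀ l ∈ Ico (u / H + 1) (v / H), 1 / (2 * (2 * (H : ℝ)) ^ r) ≤ 1 / (2 : ℝ) ^ (dd (code l)) := by
      intro l _
      rw [hq l]
      apply one_div_le_one_div_of_le (by positivity)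
      rw [pow_add, pow_one, pow_mul]
      refine mul_le_mul_of_nonneg_left (pow_le_pow_left₀ (by positivity) ?_ _) (by norm_num)
      exact_mod_cast hQH
    have h := sum_le_sum hone
    rw [sum_const, Nat.card_Ico, nsmul_eq_mul] at h
    refine le_trans (le_of_eq ?_) h
    have e4 : ((v / H - (u / H + 1) : ℕ) : ℝ) = ((v / H : ℕ) : ℝ) - ((u / H : ℕ) : ℝ) - 1 := by
      rw [Nat.cast_sub (by omega)]
      push_cast
      ring
    rw [e4]
    ring
  · exact void_pairwise hk hX hE 3 (u - 3) le_rfl (by have := Nat.div_le_self X 2; omega) (by omega)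
  · exact void_pairwise hk hX hE (X / 2 + 1) (X - X / 2) (by omega) (by omega) (by omega)

end

end Pool.Agent.H453.LI
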