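import Pool.Graph.R_pool_sql_team_seeded_2aa45f1a.Q51.LI.MomentAs

/-!
# Small values of the largest gap with independence of order `2 r`
-/

namespace Pool.Agent.H453.LI

open Finset MeasureTheory Filter Topology
open Pool.Agent.Q51.LI (IsRandomSet HasGap log_two_pow gap_moment)

variable {Ω : Type} [MeasurableSpace Ω]

lemma ae_often {P : Measure Ω} [IsProbabilityMeasure P] (s : ℕ → Set Ω)
    (h : Tendsto (fun i => P.real (s i)) atTop (𝓝 0)) : ∀ᵐ ω ∂P, ∃ᶠ i : ℕ in atTop, ω ∉ s i := by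
  have key : ∀ N : ℕ, ∀ᵐ ω ∂P, ¬ ∀ i, N ≤ i → ω ∈ s i := by
    intro N
    rw [ae_iff]
    simp only [not_not]
    have h1 : P.real {ω | ∀ i, N ≤ i → ω ∈ s i} = 0 := by
      refine le_antisymm (ge_of_tendsto h ?_) measureReal_nonneg
      filter_upwards [eventually_ge_atTop N] with i hi
      exact measureReal_mono (fun ω hω => hω i hi) (measure_ne_top _ _)
    rw [Measure.real, ENNReal.toReal_eq_zero_iff] at h1
    exact h1.resolve_right (measure_ne_top _ _)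
  filter_upwards [ae_all_iff.2 key] with ω hω
  rw [frequently_atTop]
  intro N
  have h1 := hω N
  push Not at h1
  exact h1

/-- With independence of order `2 r` there are almost surely infinitely many `X` such that all gaps up to `X` are smaller than
`X ^ (1 / (r + 1)) (log X) ^ (1 - 1 / (r + 1) + ε)`. -/
theorem ae_small {P : Measure Ω} [IsProbabilityMeasure P] (r k : ℕ) (hr : 1 ≤ r) (hk : 2 * r ≤ k) (E : ℕ → Set Ω)
    (h : ∀ X, IsRandomSet P k X E) (ε : ℝ) (hε : 0 < ε) :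
    ∀ᵐ ω ∂P, ∃ᶠ X : ℕ in atTop,
      ¬ HasGap E X ((X : ℝ) ^ (1 / ((r : ℝ) + 1)) * Real.log X ^ (1 - 1 / ((r : ℝ) + 1) + ε)) ω := by
  set θ : ℝ := 1 / ((r : ℝ) + 1) with hθ
  have hr0 : (0 : ℝ) < (r : ℝ) + 1 := by positivity
  have hθ0 : 0 < θ := by positivity
  have hθ1 : θ ≤ 1 := by
    rw [hθ, div_le_one hr0]
    have : (0 : ℝ) ≤ r := by positivity
    linarith
  set L : ℕ → ℝ := fun i => Real.log ((2 ^ i : ℕ) : ℝ) with hL
  have hLlim : Tendsto L atTop atTop := by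
    have h2 : Tendsto (fun i : ℕ => (i : ℝ) * Real.log 2) atTop atTop :=
      tendsto_natCast_atTop_atTop.atTop_mul_const (Real.log_pos (by norm_num))
    refine h2.congr fun i => ?_
    simp only [hL, log_two_pow]
  set g : ℕ → ℕ := fun i => ⌈((2 ^ i : ℕ) : ℝ) ^ θ * L i ^ (1 - θ + ε / 2)⌉₊ with hg
  have hlim : Tendsto (fun i => P.real {ω | HasGap E (2 ^ i) (2 * r * (g i : ℕ) + 1) ω}) atTop (𝓝 0) := by
    have hlim0 : Tendsto (fun i => (L i) ^ (-((ε / 2) * ((r : ℝ) + 1)))) atTop (𝓝 0) :=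
      (tendsto_rpow_neg_atTop (by positivity)).comp hLlim
    refine squeeze_zero' (Eventually.of_forall fun i => measureReal_nonneg) ?_ hlim0
    filter_upwards [eventually_ge_atTop 2] with i hi
    have hY3 : 3 ≤ 2 ^ i := by
      have : 2 ^ 2 ≤ 2 ^ i := Nat.pow_le_pow_right (by norm_num) hi
      omega
    have hL1 : 1 < L i := Pool.Agent.Q51.LI.one_lt_logX hY3
    have hL0 : 0 < L i := by linarith
    have hY0 : (0 : ℝ) < ((2 ^ i : ℕ) : ℝ) := by positivity
    have hgi : ((2 ^ i : ℕ) : ℝ) ^ θ * L i ^ (1 - θ + ε / 2) ≤ g i := Nat.le_ceil _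
    have hgpos : 1 ≤ g i := by
      have h1 : (0 : ℝ) < g i := lt_of_lt_of_le (by positivity) hgi
      exact_mod_cast h1
    refine (gap_moment hY3 (h _) (g i) r hgpos hr hk).trans ?_
    set Y : ℝ := ((2 ^ i : ℕ) : ℝ) with hY
    have h1 : Y * (L i ^ r * L i ^ ((ε / 2) * ((r : ℝ) + 1))) ≤ (g i : ℝ) ^ (r + 1) := by
      have h2 : Y * (L i ^ r * L i ^ ((ε / 2) * ((r : ℝ) + 1))) = (Y ^ θ * L i ^ (1 - θ + ε / 2)) ^ (r + 1) := by
        rw [mul_pow, ← Real.rpow_mul_natCast hY0.le, ← Real.rpow_mul_natCast hL0.le, ← Real.rpow_natCast (L i) r,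
          ← Real.rpow_add hL0]
        congr 1
        · rw [hθ]
          push_cast
          rw [one_div, inv_mul_cancel₀ hr0.ne', Real.rpow_one]
        · congr 1
          rw [hθ]
          push_cast
          field_simp
          ring
      rw [h2]
      exact pow_le_pow_left₀ (by positivity) hgi _
    have hp0 : 0 < L i ^ ((ε / 2) * ((r : ℝ) + 1)) := by positivity
    calc Y * Real.log Y ^ r / (g i : ℝ) ^ (r + 1) ≤ Y * L i ^ r / (Y * (L i ^ r * L i ^ ((ε / 2) * ((r : ℝ) + 1)))) :=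
          div_le_div_of_nonneg_left (by positivity) (by positivity) h1
      _ = (L i ^ ((ε / 2) * ((r : ℝ) + 1)))⁻¹ := by field_simp
      _ = L i ^ (-((ε / 2) * ((r : ℝ) + 1))) := (Real.rpow_neg hL0.le _).symm
  set C : ℝ := 4 * r + 1 with hC
  have hbig : ∀ᶠ i : ℕ in atTop, C ≤ L i ^ (ε / 2) :=
    ((tendsto_rpow_atTop (by positivity : (0 : ℝ) < ε / 2)).comp hLlim).eventually_ge_atTop _
  have h7 : Tendsto (fun i : ℕ => 2 ^ i) atTop atTop :=
    tendsto_atTop_mono (fun s => Nat.lt_two_pow_self.le) tendsto_id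
  filter_upwards [ae_often _ hlim] with ω hω
  refine h7.frequently ((hω.and_eventually (hbig.and (eventually_ge_atTop 2))).mono ?_)
  rintro i ⟨hi, hCi, hi2⟩ hgap
  apply hi
  refine hgap.mono le_rfl ?_
  have hY3 : 3 ≤ 2 ^ i := by
    have : 2 ^ 2 ≤ 2 ^ i := Nat.pow_le_pow_right (by norm_num) hi2
    omega
  have hL1 : 1 < L i := Pool.Agent.Q51.LI.one_lt_logX hY3
  have hL0 : 0 < L i := by linarith
  have hY1 : (1 : ℝ) ≤ ((2 ^ i : ℕ) : ℝ) := by
    have : 1 ≤ 2 ^ i := by omega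
    exact_mod_cast this
  set Z := ((2 ^ i : ℕ) : ℝ) ^ θ * L i ^ (1 - θ + ε / 2) with hZ
  have hZ1 : 1 ≤ Z := by
    have a1 : (1 : ℝ) ≤ ((2 ^ i : ℕ) : ℝ) ^ θ := Real.one_le_rpow hY1 hθ0.le
    have a2 : (1 : ℝ) ≤ L i ^ (1 - θ + ε / 2) := Real.one_le_rpow hL1.le (by linarith)
    nlinarith
  have hgi : (g i : ℝ) ≤ 2 * Z := by
    have : (g i : ℝ) < Z + 1 := Nat.ceil_lt_add_one (by positivity)
    linarith
  have e : ((2 ^ i : ℕ) : ℝ) ^ θ * Real.log ((2 ^ i : ℕ) : ℝ) ^ (1 - θ + ε) = Z * L i ^ (ε / 2) := by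
    rw [hZ, mul_assoc, ← Real.rpow_add hL0]
    congr 2
    ring
  rw [e]
  have h10 : Z * C ≤ Z * L i ^ (ε / 2) := mul_le_mul_of_nonneg_left hCi (by linarith)
  refine le_trans ?_ h10
  have hr1 : (0 : ℝ) ≤ r := by positivity
  have h11 : 2 * (r : ℝ) * (g i : ℝ) ≤ 2 * r * (2 * Z) := mul_le_mul_of_nonneg_left hgi (by positivity)
  have h12 : Z * C = 2 * r * (2 * Z) + Z := by rw [hC]; ring
  linarith

end Pool.Agent.H453.LI
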