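import Pool.Agent.H453.LI.Fin2
import Pool.Graph.R_pool_sql_team_seeded_2aa45f1a.Q51.LI.MomentAs

/-!
# Independence of order `c log X / log log X` and gaps of the length of a power of `log X`
-/

namespace Pool.Agent.H453.LI

open Finset MeasureTheory Filter Topology
open Pool.Agent.Q51.LI (IsRandomSet HasGap gap_moment)

lemma tendsto_logX : Tendsto (fun X : ℕ => Real.log X) atTop atTop :=
  Real.tendsto_log_atTop.comp tendsto_natCast_atTop_atTop

lemma tendsto_loglogX : Tendsto (fun X : ℕ => Real.log (Real.log X)) atTop atTop :=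
  Real.tendsto_log_atTop.comp tendsto_logX

/-- `log log X` is small against `log X` -/
lemma loglog_small (δ : ℝ) (hδ : 0 < δ) : ∀ᶠ X : ℕ in atTop, Real.log (Real.log X) ≤ δ * Real.log X := by
  have h1 := Real.isLittleO_log_id_atTop.bound hδ
  filter_upwards [tendsto_logX.eventually h1, tendsto_logX.eventually_ge_atTop 1,
    tendsto_loglogX.eventually_ge_atTop 0] with X h2 h3 h4
  rw [Real.norm_of_nonneg h4, id, Real.norm_of_nonneg (by linarith)] at h2
  exact h2

/-- Independence of order `c log X / log log X`, `c < 2 / (A - 1)`, allows gaps of length `(log X) ^ A`. -/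
theorem poly_lower (A c : ℝ) (hA : 1 < A) (hc : 0 < c) (hcA : c < 2 / (A - 1)) :
    ∀ᶠ X : ℕ in atTop, ∀ k : ℕ, (k : ℝ) ≤ c * Real.log X / Real.log (Real.log X) →
      ∃ (Ω : Type) (_ : MeasurableSpace Ω) (P : Measure Ω) (E : ℕ → Set Ω), IsProbabilityMeasure P ∧
        (∀ Y, IsRandomSet P k Y E) ∧
        P.real {ω | ¬ HasGap E X (Real.log X ^ A) ω} ≤ Real.exp (-(Real.log X / 3)) := by
  set a : ℝ := ((A - 1) + 2 / c) / 2 with ha
  have hA0 : 0 < A - 1 := by linarith
  have hAc : A - 1 < 2 / c := by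
    rw [lt_div_iff₀ hc]
    rw [lt_div_iff₀ hA0] at hcA
    linarith
  have haA : A - 1 < a := by rw [ha]; linarith
  have hac : a * c / 2 < 1 := by
    have h1 : a < 2 / c := by rw [ha]; linarith
    have h2 : a * c < 2 := by rwa [lt_div_iff₀ hc] at h1
    linarith
  have ha0 : 0 < a := by linarith
  have h1 := loglog_small ((1 - a * c / 2) / (2 * a + 3)) (div_pos (by linarith) (by linarith))
  have h2 : ∀ᶠ X : ℕ in atTop, 20 ≤ Real.log X ^ (1 + a - A) :=
    ((tendsto_rpow_atTop (by linarith : (0 : ℝ) < 1 + a - A)).comp tendsto_logX).eventually_ge_atTop _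
  have h2' : ∀ᶠ X : ℕ in atTop, 4 ≤ Real.log X ^ a :=
    ((tendsto_rpow_atTop ha0).comp tendsto_logX).eventually_ge_atTop _
  filter_upwards [h1, h2, h2', tendsto_logX.eventually_ge_atTop 1000, tendsto_loglogX.eventually_ge_atTop 1]
    with X h3 h4 h4' h5 h6 k hk
  set L := Real.log X with hL
  set l := Real.log L with hl
  have hL0 : 0 < L := by linarith
  have hX0 : (0 : ℝ) < X := by
    rcases Nat.eq_zero_or_pos X with h | h
    · subst h
      simp at hL
      linarith
    · exact_mod_cast h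
  set κ := k / 2 + 2 with hκ
  have hκr : (κ : ℝ) ≤ k / 2 + 2 := by
    rw [hκ]
    push_cast
    have : ((k / 2 : ℕ) : ℝ) ≤ (k : ℝ) / 2 := Nat.cast_div_le
    linarith
  have hκ0 : (0 : ℝ) < κ := by
    have : 0 < κ := by omega
    exact_mod_cast this
  have hlogv : Real.log ((X : ℝ) / (2 * L ^ 2)) = L - (Real.log 2 + 2 * l) := by
    rw [Real.log_div hX0.ne' (by positivity), Real.log_mul (by norm_num) (by positivity), Real.log_pow]
    push_cast
    rfl
  have hl2 : Real.log 2 < 1 := by have := Real.log_two_lt_d9; linarith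
  have hkey : l * a * κ ≤ L - (Real.log 2 + 2 * l) := by
    have e1 : l * a * κ ≤ l * a * (c * L / l / 2 + 2) := by
      refine mul_le_mul_of_nonneg_left ?_ (by positivity)
      linarith
    have e2 : l * a * (c * L / l / 2 + 2) = a * c / 2 * L + 2 * a * l := by
      have : l ≠ 0 := by linarith
      field_simp
    have e3 : (2 * a + 3) * l ≤ (1 - a * c / 2) * L := by
      have e4 : (2 * a + 3) * l ≤ (2 * a + 3) * ((1 - a * c / 2) / (2 * a + 3) * L) :=
        mul_le_mul_of_nonneg_left h3 (by linarith)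
      have e5 : (2 * a + 3) * ((1 - a * c / 2) / (2 * a + 3) * L) = (1 - a * c / 2) * L := by field_simp
      linarith
    linarith
  have hpow : L ^ a ≤ ((X : ℝ) / (2 * L ^ 2)) ^ (1 / (κ : ℝ)) := by
    rw [Real.rpow_def_of_pos (by positivity : (0 : ℝ) < (X : ℝ) / (2 * L ^ 2)), hlogv, Real.rpow_def_of_pos hL0]
    apply Real.exp_le_exp.2
    rw [mul_one_div, le_div_iff₀ hκ0]
    exact hkey
  have hpow2 : 20 * L ^ A ≤ L * L ^ a := by
    have e : L * L ^ a = L ^ (1 + a - A) * L ^ A := by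
      rw [← Real.rpow_add hL0, ← Real.rpow_one_add' hL0.le (by linarith)]
      congr 1
      ring
    rw [e]
    exact mul_le_mul_of_nonneg_right h4 (by positivity)
  obtain ⟨Ω, mΩ, P, E, b1, b2, b3⟩ := finite_gap2 X h5 κ (by omega) (h4'.trans hpow)
  refine ⟨Ω, mΩ, P, E, b1, fun Y => ⟨(b2 Y).1, fun S hS hc => (b2 Y).2 S hS (hc.trans (by omega))⟩, le_trans ?_ b3⟩
  refine measureReal_mono ?_ (measure_ne_top _ _)
  intro ω hω hg
  refine hω (hg.mono le_rfl ?_)
  have e6 : L * L ^ a ≤ L * ((X : ℝ) / (2 * L ^ 2)) ^ (1 / (κ : ℝ)) := mul_le_mul_of_nonneg_left hpow hL0.le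
  show L ^ A ≤ L * ((X : ℝ) / (2 * L ^ 2)) ^ (1 / (κ : ℝ)) / 20
  linarith

/-- Independence of order `c log X / log log X` excludes gaps of length `(log X) ^ (2 + 2 / c + ε)`. -/
theorem poly_upper (c ε : ℝ) (hc : 0 < c) (hε : 0 < ε) :
    ∀ᶠ X : ℕ in atTop, ∀ (Ω : Type) (_ : MeasurableSpace Ω) (P : Measure Ω), IsProbabilityMeasure P →
      ∀ (E : ℕ → Set Ω) (k : ℕ), IsRandomSet P k X E → c * Real.log X / Real.log (Real.log X) ≤ k →
        P.real {ω | HasGap E X (Real.log X ^ (2 + 2 / c + ε)) ω} ≤ (X : ℝ) ^ (-(ε * c / 4)) := by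
  have h1 := loglog_small (c / 4) (by positivity)
  have h2 : ∀ᶠ X : ℕ in atTop, 2 * c + 1 ≤ Real.log X ^ (ε / 2) :=
    ((tendsto_rpow_atTop (by linarith : (0 : ℝ) < ε / 2)).comp tendsto_logX).eventually_ge_atTop _
  filter_upwards [h1, h2, tendsto_logX.eventually_ge_atTop 2, tendsto_loglogX.eventually_ge_atTop 1,
    eventually_ge_atTop 3] with X h3 h4 h5 h6 h7 Ω _ P _ E k hE hk
  set L := Real.log X with hL
  set l := Real.log L with hl
  have hL0 : 0 < L := by linarith
  have hl0 : 0 < l := by linarith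
  have hX0 : (0 : ℝ) < X := by
    have : 0 < X := by omega
    exact_mod_cast this
  set r := ⌊c * L / (2 * l)⌋₊ with hr
  have hr1 : 1 ≤ r := by
    refine Nat.le_floor ?_
    rw [Nat.cast_one, le_div_iff₀ (by linarith)]
    nlinarith
  have hr2 : (r : ℝ) ≤ c * L / (2 * l) := Nat.floor_le (by positivity)
  have hr3 : c * L / (2 * l) < r + 1 := Nat.lt_floor_add_one _
  have hrk : 2 * r ≤ k := by
    have e : c * L / l = 2 * (c * L / (2 * l)) := by field_simp
    have : (2 : ℝ) * r ≤ k := by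
      rw [e] at hk
      linarith
    exact_mod_cast this
  set β : ℝ := 1 + 2 / c + ε / 2 with hβ
  have hβ0 : 0 < β := by positivity
  set h := ⌈L ^ β⌉₊ with hh
  have hh1 : L ^ β ≤ h := Nat.le_ceil _
  have hLβ : 1 ≤ L ^ β := Real.one_le_rpow (by linarith) hβ0.le
  have hh2 : 1 ≤ h := by
    have : (1 : ℝ) ≤ h := hLβ.trans hh1
    exact_mod_cast this
  have hh3 : (h : ℝ) ≤ 2 * L ^ β := by
    have : (h : ℝ) < L ^ β + 1 := Nat.ceil_lt_add_one (by positivity)
    linarith
  have hbound := gap_moment h7 hE h r hh2 hr1 hrk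
  have hlen : 2 * (r : ℝ) * h + 1 ≤ L ^ (2 + 2 / c + ε) := by
    have e1 : 2 * (r : ℝ) ≤ c * L := by
      have : c * L / (2 * l) ≤ c * L / 2 := div_le_div_of_nonneg_left (by positivity) (by norm_num) (by linarith)
      linarith
    have e2 : 2 * (r : ℝ) * h ≤ c * L * (2 * L ^ β) := mul_le_mul e1 hh3 (by positivity) (by positivity)
    have e3 : L ^ (2 + 2 / c + ε) = L * L ^ β * L ^ (ε / 2) := by
      rw [← Real.rpow_one_add' hL0.le (by linarith), ← Real.rpow_add hL0]
      congr 1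
      rw [hβ]
      ring
    have e4 : 1 ≤ L * L ^ β := by nlinarith
    have e5 : L * L ^ β * (2 * c + 1) ≤ L * L ^ β * L ^ (ε / 2) := mul_le_mul_of_nonneg_left h4 (by positivity)
    rw [e3]
    nlinarith
  have hsub : P.real {ω | HasGap E X (L ^ (2 + 2 / c + ε)) ω} ≤ P.real {ω | HasGap E X (2 * r * h + 1) ω} := by
    refine measureReal_mono ?_ (measure_ne_top _ _)
    intro ω hω
    exact Pool.Agent.Q51.LI.HasGap.mono hω le_rfl hlen
  refine hsub.trans (hbound.trans ?_)
  have hpow : (X : ℝ) ^ (1 + ε * c / 4) * L ^ r ≤ (h : ℝ) ^ (r + 1) := by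
    have e1 : (L ^ β) ^ (r + 1) ≤ (h : ℝ) ^ (r + 1) := pow_le_pow_left₀ (by positivity) hh1 _
    refine le_trans ?_ e1
    rw [← Real.rpow_mul_natCast hL0.le, Real.rpow_def_of_pos hX0, Real.rpow_def_of_pos hL0,
      ← Real.rpow_natCast L r, Real.rpow_def_of_pos hL0, ← Real.exp_add]
    apply Real.exp_le_exp.2
    push_cast
    have e2 : l * (β * ((r : ℝ) + 1)) = l * (r + 1) + (2 / c + ε / 2) * (l * (r + 1)) := by rw [hβ]; ring
    have e3 : c * L / 2 ≤ l * ((r : ℝ) + 1) := by
      have : c * L / (2 * l) * l ≤ (r + 1) * l := mul_le_mul_of_nonneg_right hr3.le hl0.le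
      have e4 : c * L / (2 * l) * l = c * L / 2 := by field_simp
      linarith
    have e5 : (2 / c + ε / 2) * (c * L / 2) = L * (1 + ε * c / 4) := by field_simp; ring
    have e6 : (2 / c + ε / 2) * (c * L / 2) ≤ (2 / c + ε / 2) * (l * ((r : ℝ) + 1)) :=
      mul_le_mul_of_nonneg_left e3 (by positivity)
    show L * (1 + ε * c / 4) + l * (r : ℝ) ≤ l * (β * ((r : ℝ) + 1))
    rw [e2]
    nlinarith
  have hLr : 0 < L ^ r := by positivity
  calc X * L ^ r / (h : ℝ) ^ (r + 1) ≤ X * L ^ r / ((X : ℝ) ^ (1 + ε * c / 4) * L ^ r) :=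
        div_le_div_of_nonneg_left (by positivity) (by positivity) hpow
    _ = (X : ℝ) ^ (-(ε * c / 4)) := by
        rw [mul_div_mul_right _ _ hLr.ne', Real.rpow_add hX0, Real.rpow_one, Real.rpow_neg hX0.le]
        field_simp

end Pool.Agent.H453.LI
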