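import Pool.Agent.H453.LI.Dyadic

/-!
# The largest gaps with independence of order `2 k - 1`: exact powers of `X` and of `log X`
-/

namespace Pool.Agent.H453.LI

open Finset MeasureTheory Filter Topology
open Pool.Agent.Q51.LI (pr pr_mem IsRandomSet HasGap void void_pairwise ae_eventually log_two_pow exists_dyadic)

/-- `2 ^ (1 / k)` -/
noncomputable def bb (k : ℕ) : ℝ := (2 : ℝ) ^ (1 / (k : ℝ))

lemma bb_pow {k : ℕ} (hk : 2 ≤ k) : bb k ^ k = 2 := by
  unfold bb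
  rw [one_div]
  exact Real.rpow_inv_natCast_pow (by norm_num) (by omega)

lemma one_lt_bb {k : ℕ} (hk : 2 ≤ k) : 1 < bb k := by
  unfold bb
  have : (0 : ℝ) < k := by exact_mod_cast (by omega : 0 < k)
  exact Real.one_lt_rpow (by norm_num) (by positivity)

lemma bb_sq {k : ℕ} (hk : 2 ≤ k) : bb k ^ 2 ≤ 2 :=
  (pow_le_pow_right₀ (one_lt_bb hk).le hk).trans (bb_pow hk).le

lemma rpow_bb (k n : ℕ) : ((2 : ℝ) ^ n) ^ (1 / (k : ℝ)) = bb k ^ n := by
  unfold bb
  rw [← Real.rpow_natCast, ← Real.rpow_natCast, ← Real.rpow_mul (by norm_num), ← Real.rpow_mul (by norm_num), mul_comm]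

/-- the number of groups in a block on the scales `t`, `t` odd -/
noncomputable def GB (k t : ℕ) : ℕ := max 1 ⌊bb k ^ t / 2⌋₊

/-- `(2 ^ t / (t (log t) ^ 2)) ^ (1 / k)` -/
noncomputable def yy (k t : ℕ) : ℝ := ((2 : ℝ) ^ t / (t * Real.log t ^ 2)) ^ (1 / (k : ℝ))

/-- the number of groups in a block on the scales `t`, `t` even -/
noncomputable def GA (k t : ℕ) : ℕ := max 1 ⌊yy k t / 2⌋₊

/-- the number of groups in a block -/
noncomputable def GG (k t : ℕ) : ℕ := if Even t then GA k t else GB k t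

lemma GG_pos (k t : ℕ) : 1 ≤ GG k t := by
  unfold GG GA GB
  split_ifs <;> exact le_max_left _ _

lemma large (k : ℕ) (hk : 2 ≤ k) : ∀ᶠ t : ℕ in atTop, 12 ≤ t ∧ 3 ≤ Real.log t ∧ 6 * ((t : ℝ) * t) ≤ bb k ^ t := by
  have h1 : Tendsto (fun t : ℕ => (t : ℝ) ^ 2 / bb k ^ t) atTop (𝓝 0) :=
    tendsto_pow_const_div_const_pow_of_one_lt 2 (one_lt_bb hk)
  have h2 : ∀ᶠ t : ℕ in atTop, (t : ℝ) ^ 2 / bb k ^ t ≤ 1 / 6 :=
    (h1.eventually (gt_mem_nhds (show (0 : ℝ) < 1 / 6 by norm_num))).mono fun t ht => le_of_lt ht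
  have h3 : ∀ᶠ t : ℕ in atTop, 3 ≤ Real.log t :=
    (Real.tendsto_log_atTop.comp tendsto_natCast_atTop_atTop).eventually_ge_atTop 3
  filter_upwards [h2, h3, eventually_ge_atTop 12] with t a b c
  refine ⟨c, b, ?_⟩
  have h0 : 0 < bb k ^ t := pow_pos (by have := one_lt_bb hk; linarith) _
  rw [div_le_iff₀ h0] at a
  linarith [sq (t : ℝ)]

section
variable {k t : ℕ}

lemma gg_bounds (ht : 12 ≤ t) : (t : ℝ) / 4 ≤ gg t ∧ (gg t : ℝ) ≤ t / 3 := by
  unfold gg
  rw [max_eq_right (by omega)]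
  refine ⟨?_, Nat.cast_div_le⟩
  have h1 : t ≤ 3 * (t / 3) + 2 := by omega
  have h2 : (t : ℝ) ≤ 3 * ((t / 3 : ℕ) : ℝ) + 2 := by exact_mod_cast h1
  have h3 : (12 : ℝ) ≤ t := by exact_mod_cast ht
  linarith

lemma floor_bounds {y : ℝ} (hy : 6 ≤ y) : y / 3 ≤ ((max 1 ⌊y / 2⌋₊ : ℕ) : ℝ) ∧
    2 * ((max 1 ⌊y / 2⌋₊ : ℕ) : ℝ) ≤ y := by
  have h1 : 1 ≤ ⌊y / 2⌋₊ := Nat.le_floor (by push_cast; linarith)
  rw [max_eq_right h1]
  have h2 : y / 2 < ⌊y / 2⌋₊ + 1 := Nat.lt_floor_add_one _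
  have h3 : (⌊y / 2⌋₊ : ℝ) ≤ y / 2 := Nat.floor_le (by linarith)
  constructor <;> linarith

lemma bb_large (ht : 12 ≤ t) (h6 : 6 * ((t : ℝ) * t) ≤ bb k ^ t) : 6 ≤ bb k ^ t ∧ (t : ℝ) ≤ bb k ^ t := by
  have h3 : (12 : ℝ) ≤ t := by exact_mod_cast ht
  constructor <;> nlinarith

lemma yy_eq (k : ℕ) (ht : 12 ≤ t) (hl : 3 ≤ Real.log t) :
    yy k t = bb k ^ t / ((t : ℝ) ^ (1 / (k : ℝ)) * (Real.log t ^ 2) ^ (1 / (k : ℝ))) := by
  unfold yy
  have h3 : (0 : ℝ) < t := by exact_mod_cast (by omega : 0 < t)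
  rw [Real.div_rpow (by positivity) (by positivity), Real.mul_rpow (by positivity) (by positivity), rpow_bb]

lemma log_pow_le (hk : 2 ≤ k) {L : ℝ} (hl : 3 ≤ L) : (L ^ 2) ^ (1 / (k : ℝ)) ≤ L := by
  have hk' : (2 : ℝ) ≤ k := by exact_mod_cast hk
  rw [← Real.rpow_natCast, ← Real.rpow_mul (by linarith)]
  calc L ^ (((2 : ℕ) : ℝ) * (1 / (k : ℝ))) ≤ L ^ (1 : ℝ) := by
        refine Real.rpow_le_rpow_of_exponent_le (by linarith) ?_
        push_cast
        rw [mul_one_div, div_le_one (by linarith)]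
        exact hk'
    _ = L := Real.rpow_one L

lemma yy_large (hk : 2 ≤ k) (ht : 12 ≤ t) (hl : 3 ≤ Real.log t) (h6 : 6 * ((t : ℝ) * t) ≤ bb k ^ t) :
    6 ≤ yy k t := by
  have h3 : (12 : ℝ) ≤ t := by exact_mod_cast ht
  have hk' : (2 : ℝ) ≤ k := by exact_mod_cast hk
  rw [yy_eq k ht hl, le_div_iff₀ (by positivity)]
  refine le_trans ?_ h6
  refine mul_le_mul_of_nonneg_left ?_ (by norm_num)
  refine mul_le_mul ?_ ?_ (by positivity) (by positivity)
  · calc (t : ℝ) ^ (1 / (k : ℝ)) ≤ (t : ℝ) ^ (1 : ℝ) := by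
          refine Real.rpow_le_rpow_of_exponent_le (by linarith) ?_
          rw [div_le_one (by linarith)]
          linarith
      _ = t := Real.rpow_one _
  · refine (log_pow_le hk hl).trans ?_
    have := Real.log_le_sub_one_of_pos (show (0 : ℝ) < t by linarith)
    linarith

lemma yy_le (hk : 2 ≤ k) (ht : 12 ≤ t) (hl : 3 ≤ Real.log t) : yy k t ≤ bb k ^ t := by
  have h3 : (12 : ℝ) ≤ t := by exact_mod_cast ht
  rw [← rpow_bb]
  unfold yy
  have hk' : (2 : ℝ) ≤ k := by exact_mod_cast hk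
  refine Real.rpow_le_rpow (by positivity) ?_ (by positivity)
  refine div_le_self (by positivity) ?_
  have h4 : 1 ≤ Real.log t ^ 2 := by nlinarith
  nlinarith

lemma yy_pow (hk : 2 ≤ k) (ht : 12 ≤ t) (hl : 3 ≤ Real.log t) : yy k t ^ k * (t * Real.log t ^ 2) = 2 ^ t := by
  have h3 : (12 : ℝ) ≤ t := by exact_mod_cast ht
  unfold yy
  rw [one_div, Real.rpow_inv_natCast_pow (by positivity) (by omega)]
  have h4 : Real.log t ≠ 0 := by linarith
  field_simp

/-- all blocks are short -/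
lemma four_le (hk : 2 ≤ k) (ht : 12 ≤ t) (hl : 3 ≤ Real.log t) (h6 : 6 * ((t : ℝ) * t) ≤ bb k ^ t) :
    4 * (gg t * GG k t) ≤ 2 ^ t := by
  have h3 : (12 : ℝ) ≤ t := by exact_mod_cast ht
  have hg := (gg_bounds ht).2
  have hb := bb_large (k := k) ht h6
  have hG : 2 * (GG k t : ℝ) ≤ bb k ^ t := by
    unfold GG
    split_ifs
    · exact (floor_bounds (yy_large hk ht hl h6)).2.trans (yy_le hk ht hl)
    · exact (floor_bounds hb.1).2
  have h1 : 4 * ((gg t : ℝ) * GG k t) ≤ 2 ^ t := by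
    have hg0 : (0 : ℝ) ≤ gg t := by positivity
    have hG0 : (0 : ℝ) ≤ GG k t := by positivity
    have hb0 : (0 : ℝ) < bb k ^ t := by linarith
    have hb2 : bb k ^ t * bb k ^ t ≤ 2 ^ t := by
      rw [← mul_pow, ← sq]
      exact pow_le_pow_left₀ (by positivity) (bb_sq hk) _
    calc 4 * ((gg t : ℝ) * GG k t) = 2 * (gg t * (2 * (GG k t : ℝ))) := by ring
      _ ≤ 2 * (t / 3 * bb k ^ t) := by
          refine mul_le_mul_of_nonneg_left ?_ (by norm_num)
          exact mul_le_mul hg hG (by positivity) (by positivity)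
      _ ≤ bb k ^ t * bb k ^ t := by nlinarith
      _ ≤ 2 ^ t := hb2
  exact_mod_cast h1

/-- the expected number of silent blocks on an even scale -/
lemma sum_even (hk : 2 ≤ k) (ht : 12 ≤ t) (hl : 3 ≤ Real.log t) (h6 : 6 * ((t : ℝ) * t) ≤ bb k ^ t) (he : Even t) :
    2 * Real.log t ≤ ((win (gg t * GG k t) t).card : ℝ) / (2 * (2 * (GG k t : ℝ)) ^ (k - 1)) := by
  have h3 : (12 : ℝ) ≤ t := by exact_mod_cast ht
  have hy := yy_large hk ht hl h6
  have hG : (2 * (GG k t : ℝ)) ^ k * (t * Real.log t ^ 2) ≤ 2 ^ t := by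
    rw [← yy_pow hk ht hl]
    refine mul_le_mul_of_nonneg_right ?_ (by positivity)
    refine pow_le_pow_left₀ (by positivity) ?_ _
    unfold GG
    rw [if_pos he]
    exact (floor_bounds hy).2
  refine le_trans ?_ (silent_sum (by omega) (gg_pos t) (GG_pos k t) (four_le hk ht hl h6) hG)
  have hg := (gg_bounds ht).2
  have hg0 : (0 : ℝ) < gg t := by have := gg_pos t; exact_mod_cast this
  rw [le_div_iff₀ (by positivity)]
  have h5 : 2 * Real.log t * (4 * (gg t : ℝ)) ≤ 2 * Real.log t * (4 * (t / 3)) :=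
    mul_le_mul_of_nonneg_left (by linarith) (by linarith)
  refine h5.trans ?_
  have h7 : 0 ≤ (t : ℝ) * Real.log t := by positivity
  nlinarith

/-- the expected number of silent blocks on an odd scale -/
lemma sum_odd (hk : 2 ≤ k) (ht : 12 ≤ t) (hl : 3 ≤ Real.log t) (h6 : 6 * ((t : ℝ) * t) ≤ bb k ^ t) (he : ¬ Even t) :
    3 / 4 * (1 / (t : ℝ)) ≤ ((win (gg t * GG k t) t).card : ℝ) / (2 * (2 * (GG k t : ℝ)) ^ (k - 1)) := by
  have h3 : (12 : ℝ) ≤ t := by exact_mod_cast ht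
  have hb := bb_large (k := k) ht h6
  have hG : (2 * (GG k t : ℝ)) ^ k * 1 ≤ 2 ^ t := by
    rw [mul_one]
    calc (2 * (GG k t : ℝ)) ^ k ≤ (bb k ^ t) ^ k := by
          refine pow_le_pow_left₀ (by positivity) ?_ _
          unfold GG
          rw [if_neg he]
          exact (floor_bounds hb.1).2
      _ = 2 ^ t := by rw [← pow_mul, mul_comm, pow_mul, bb_pow hk]
  refine le_trans ?_ (silent_sum (by omega) (gg_pos t) (GG_pos k t) (four_le hk ht hl h6) hG)
  have hg := (gg_bounds ht).2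
  have hg0 : (0 : ℝ) < gg t := by have := gg_pos t; exact_mod_cast this
  rw [mul_one_div, div_le_div_iff₀ (by linarith) (by positivity)]
  linarith

end

/-- **Large gaps.** For every `k ≥ 2` there is a random set with independence of order `2 k - 1` such that almost surely: for
all large `X` there is a gap of length `X ^ (1 / k) (log X) ^ (1 - 1 / k - ε)` up to `X`, and for infinitely many `X` there is a
gap of length `X ^ (1 / k) log X / 24` up to `X`. -/
theorem sharp_lower (k : ℕ) (hk : 2 ≤ k) :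
    ∃ (Ω : Type) (_ : MeasurableSpace Ω) (P : Measure Ω) (E : ℕ → Set Ω), IsProbabilityMeasure P ∧
      (∀ X, IsRandomSet P (2 * k - 1) X E) ∧
      (∀ ε : ℝ, 0 < ε → ∀ᵐ ω ∂P, ∀ᶠ X : ℕ in atTop,
        HasGap E X ((X : ℝ) ^ (1 / (k : ℝ)) * Real.log X ^ (1 - 1 / (k : ℝ) - ε)) ω) ∧
      ∀ᵐ ω ∂P, ∃ᶠ X : ℕ in atTop, HasGap E X ((X : ℝ) ^ (1 / (k : ℝ)) * Real.log X / 24) ω := by
  obtain ⟨Ω, mΩ, P, E, Z, h1, h2, h3, h4, h5⟩ := system (τ := fun n => Nat.log 2 n) (gf := gg) (Gf := GG k) (k - 1)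
    (by omega) gg_pos (GG_pos k) gg_log
  have hk1 : 2 * (k - 1) + 1 = 2 * k - 1 := by omega
  rw [hk1] at h2
  refine ⟨Ω, mΩ, P, E, h1, h2, ?_, ?_⟩
  · -- all large X
    have hev := large k hk
    have hs : ∀ᶠ s : ℕ in atTop, 2 * Real.log s ≤
        ((win (gg (2 * s) * GG k (2 * s)) (2 * s)).card : ℝ) / (2 * (2 * (GG k (2 * s) : ℝ)) ^ (k - 1)) := by
      have h6 : Tendsto (fun s : ℕ => 2 * s) atTop atTop := tendsto_id.const_mul_atTop' (by norm_num)
      filter_upwards [h6.eventually hev, eventually_ge_atTop 1] with s hs hs1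
      refine le_trans ?_ (sum_even hk hs.1 hs.2.1 hs.2.2 ⟨s, by ring⟩)
      have hs1' : (1 : ℝ) ≤ s := by exact_mod_cast hs1
      refine mul_le_mul_of_nonneg_left (Real.log_le_log (by linarith) ?_) (by norm_num)
      push_cast
      linarith
    have hsil := ae_silent_all (P := P) (Z := Z) (k := k) (Gf := GG k) (H := fun t => gg t * GG k t) (fun s => 2 * s) h3 hs
    have hvoid := ae_not_void (P := P) (K := 2 * k - 1) (by omega) h2
    intro ε hε
    filter_upwards [hsil, hvoid] with ω hω hω'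
    obtain ⟨S₁, hS₁⟩ := eventually_atTop.1 hω
    obtain ⟨S₂, hS₂⟩ := eventually_atTop.1 hω'
    obtain ⟨S₃, hS₃⟩ := eventually_atTop.1 hev
    have hlog : ∀ᶠ t : ℕ in atTop, 48 * Real.log t ≤ ((t : ℝ) / 2) ^ ε := by
      have a1 := (isLittleO_log_rpow_atTop hε).bound (show (0 : ℝ) < 1 / (48 * 2 ^ ε) by positivity)
      filter_upwards [tendsto_natCast_atTop_atTop.eventually a1, eventually_ge_atTop 1] with t ht ht1
      have ht1' : (1 : ℝ) ≤ t := by exact_mod_cast ht1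
      rw [Real.norm_of_nonneg (Real.log_nonneg ht1'), Real.norm_of_nonneg (by positivity)] at ht
      rw [Real.div_rpow (by positivity) (by norm_num), le_div_iff₀ (by positivity)]
      have e : 1 / (48 * (2 : ℝ) ^ ε) * (t : ℝ) ^ ε * (48 * 2 ^ ε) = (t : ℝ) ^ ε := by field_simp
      rw [← e]
      have := mul_le_mul_of_nonneg_right ht (show (0 : ℝ) ≤ 48 * 2 ^ ε by positivity)
      linarith
    obtain ⟨S₄, hS₄⟩ := eventually_atTop.1 hlog
    filter_upwards [exists_dyadic (2 * (S₁ + S₂ + S₃ + S₄) + 20)] with X hX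
    obtain ⟨i, hi, hiX, hXi⟩ := hX
    obtain ⟨s, hs1, hs2⟩ : ∃ s, 2 * s + 2 ≤ i ∧ i + 1 ≤ 2 * s + 4 := ⟨(i - 2) / 2, by omega, by omega⟩
    set t := 2 * s with ht
    have ht3 := hS₃ t (by omega)
    obtain ⟨l, hl, hlZ⟩ := hS₁ s (by omega)
    have hv := hS₂ t (by omega)
    rw [Set.mem_union, not_or] at hv
    have hX1 : 2 ^ (t + 2) ≤ X := (Nat.pow_le_pow_right (by norm_num) hs1).trans hiX
    have hX2 : X < 2 ^ (t + 4) := lt_of_lt_of_le hXi (Nat.pow_le_pow_right (by norm_num) hs2)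
    have hg1 := gg_pos t
    have hG1 := GG_pos k t
    have hgb := gg_bounds ht3.1
    have hy := yy_large hk ht3.1 ht3.2.1 ht3.2.2
    have hGb : yy k t / 3 ≤ GG k t := by
      unfold GG
      rw [if_pos ⟨s, by omega⟩]
      exact (floor_bounds hy).1
    have ht12 : (12 : ℝ) ≤ t := by exact_mod_cast ht3.1
    have hH2 : 2 ≤ gg t * GG k t := by
      have a1 : 2 ≤ gg t := by
        have : (2 : ℝ) ≤ gg t := by linarith [hgb.1]
        exact_mod_cast this
      calc 2 = 2 * 1 := rfl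
        _ ≤ gg t * GG k t := Nat.mul_le_mul a1 hG1
    have e4 : 2 ^ (t + 2) = 4 * 2 ^ t := by ring
    have e5 : 2 ^ (t + 1) = 2 * 2 ^ t := by ring
    have h16 : 2 ^ 4 ≤ 2 ^ t := Nat.pow_le_pow_right (by norm_num) (by omega)
    have hgap := gap_of_silent (E := E) (Z := Z) (τ := fun n => Nat.log 2 n) (ω := ω) (t := t) (H := gg t * GG k t)
      (fun l n a b c d => h5 ω t l n a b c d) (X := 2 ^ (t + 2)) (u := 2 ^ t) (v := 2 ^ (t + 1)) hH2 (by omega) (by omega)
      (fun n a b => log_eq a b) hl hlZ hv.1 hv.2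
    refine hgap.mono hX1 ?_
    push_cast
    -- numerics
    have hk' : (2 : ℝ) ≤ k := by exact_mod_cast hk
    have hX0 : (0 : ℝ) < X := by
      have : 0 < X := by omega
      exact_mod_cast this
    have hX2' : (X : ℝ) ≤ (2 : ℝ) ^ (t + 4) := by exact_mod_cast hX2.le
    have hX1' : (2 : ℝ) ^ (t + 2) ≤ X := by exact_mod_cast hX1
    have hb1 := one_lt_bb hk
    have hb4 : bb k ^ 4 ≤ 4 := by
      have := bb_sq hk
      have e : bb k ^ 4 = (bb k ^ 2) ^ 2 := by ring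
      rw [e]
      have h0 : 0 ≤ bb k ^ 2 := by positivity
      nlinarith
    have hw : (X : ℝ) ^ (1 / (k : ℝ)) ≤ 4 * bb k ^ t := by
      calc (X : ℝ) ^ (1 / (k : ℝ)) ≤ ((2 : ℝ) ^ (t + 4)) ^ (1 / (k : ℝ)) :=
            Real.rpow_le_rpow hX0.le hX2' (by positivity)
        _ = bb k ^ 4 * bb k ^ t := by rw [rpow_bb, pow_add]; ring
        _ ≤ 4 * bb k ^ t := mul_le_mul_of_nonneg_right hb4 (by positivity)
    have hl2 : (0.69 : ℝ) < Real.log 2 := by have := Real.log_two_gt_d9; linarith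
    have hl2' : Real.log 2 < 0.7 := by have := Real.log_two_lt_d9; linarith
    have hLup : Real.log X ≤ t := by
      have a1 : Real.log X ≤ Real.log ((2 : ℝ) ^ (t + 4)) := Real.log_le_log hX0 hX2'
      rw [Real.log_pow] at a1
      push_cast at a1
      nlinarith
    have hLlo : (t : ℝ) / 2 ≤ Real.log X := by
      have a1 : Real.log ((2 : ℝ) ^ (t + 2)) ≤ Real.log X := Real.log_le_log (by positivity) hX1'
      rw [Real.log_pow] at a1
      push_cast at a1
      nlinarith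
    have hL0 : 0 < Real.log X := by linarith
    have ht0 : (0 : ℝ) < t := by linarith
    have hβ : (0 : ℝ) ≤ 1 - 1 / (k : ℝ) := by
      rw [sub_nonneg, div_le_one (by linarith)]
      linarith
    have hpow : Real.log X ^ (1 - 1 / (k : ℝ) - ε) ≤ (t : ℝ) ^ (1 - 1 / (k : ℝ)) / ((t : ℝ) / 2) ^ ε := by
      rw [Real.rpow_sub hL0]
      exact div_le_div₀ (by positivity) (Real.rpow_le_rpow hL0.le hLup hβ) (by positivity)
        (Real.rpow_le_rpow (by positivity) hLlo hε.le)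
    have h48 := hS₄ t (by omega)
    have hylow : bb k ^ t / ((t : ℝ) ^ (1 / (k : ℝ)) * Real.log t) ≤ yy k t := by
      rw [yy_eq k ht3.1 ht3.2.1]
      have : 0 < (Real.log t ^ 2) ^ (1 / (k : ℝ)) := Real.rpow_pos_of_pos (by have := ht3.2.1; positivity) _
      refine div_le_div_of_nonneg_left (by positivity) (by positivity) ?_
      exact mul_le_mul_of_nonneg_left (log_pow_le hk ht3.2.1) (by positivity)
    have hlt : 0 < Real.log t := by linarith [ht3.2.1]
    have hH : (t : ℝ) / 4 * (yy k t / 3) ≤ (gg t : ℝ) * (GG k t : ℝ) :=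
      mul_le_mul hgb.1 hGb (by linarith) (by positivity)
    have e6 : (t : ℝ) = (t : ℝ) ^ (1 - 1 / (k : ℝ)) * (t : ℝ) ^ (1 / (k : ℝ)) := by
      rw [← Real.rpow_add ht0]
      simp
    have hfin : (4 * bb k ^ t) * ((t : ℝ) ^ (1 - 1 / (k : ℝ)) / ((t : ℝ) / 2) ^ ε) ≤
        (t : ℝ) / 4 * ((bb k ^ t / ((t : ℝ) ^ (1 / (k : ℝ)) * Real.log t)) / 3) := by
      have hpt : 0 < (t : ℝ) ^ (1 / (k : ℝ)) := by positivity
      have hb0 : 0 < bb k ^ t := by positivity
      have hA0 : 0 < (t : ℝ) ^ (1 - 1 / (k : ℝ)) := by positivity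
      have hq0 : 0 < ((t : ℝ) / 2) ^ ε := by positivity
      have e7 : (t : ℝ) ^ (1 - 1 / (k : ℝ)) * (t : ℝ) ^ (1 / (k : ℝ)) / 4 *
          ((bb k ^ t / ((t : ℝ) ^ (1 / (k : ℝ)) * Real.log t)) / 3) =
          bb k ^ t * (t : ℝ) ^ (1 - 1 / (k : ℝ)) * (1 / (12 * Real.log t)) := by
        field_simp
        ring
      rw [← e6] at e7
      have e8 : (4 * bb k ^ t) * ((t : ℝ) ^ (1 - 1 / (k : ℝ)) / ((t : ℝ) / 2) ^ ε) =
          bb k ^ t * (t : ℝ) ^ (1 - 1 / (k : ℝ)) * (4 / ((t : ℝ) / 2) ^ ε) := by ring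
      rw [e7, e8]
      refine mul_le_mul_of_nonneg_left ?_ (by positivity)
      rw [div_le_div_iff₀ hq0 (by positivity)]
      linarith
    have h10 : (X : ℝ) ^ (1 / (k : ℝ)) * Real.log X ^ (1 - 1 / (k : ℝ) - ε) ≤
        (4 * bb k ^ t) * ((t : ℝ) ^ (1 - 1 / (k : ℝ)) / ((t : ℝ) / 2) ^ ε) :=
      mul_le_mul hw hpow (by positivity) (by positivity)
    have h11 : (t : ℝ) / 4 * ((bb k ^ t / ((t : ℝ) ^ (1 / (k : ℝ)) * Real.log t)) / 3) ≤ (t : ℝ) / 4 * (yy k t / 3) :=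
      mul_le_mul_of_nonneg_left (by linarith) (by positivity)
    linarith
  · -- infinitely many X
    have hev := large k hk
    have h6 : Tendsto (fun s : ℕ => 2 * s + 1) atTop atTop :=
      tendsto_atTop_mono (fun s => by show s ≤ 2 * s + 1; omega) tendsto_id
    have hs : ∀ᶠ s : ℕ in atTop, (3 / 8 : ℝ) * (1 / ((s : ℝ) + 1)) ≤
        ((win (gg (2 * s + 1) * GG k (2 * s + 1)) (2 * s + 1)).card : ℝ) / (2 * (2 * (GG k (2 * s + 1) : ℝ)) ^ (k - 1)) := by
      filter_upwards [h6.eventually hev] with s hs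
      refine le_trans ?_ (sum_odd hk hs.1 hs.2.1 hs.2.2 (by rw [Nat.not_even_iff_odd]; exact ⟨s, rfl⟩))
      have hs0 : (0 : ℝ) ≤ s := by positivity
      push_cast
      rw [mul_one_div, mul_one_div, div_le_div_iff₀ (by positivity) (by positivity)]
      linarith
    have hsil := ae_silent_often (P := P) (Z := Z) (k := k) (Gf := GG k) (H := fun t => gg t * GG k t)
      (fun s => 2 * s + 1) (fun a b h => by simpa using h) h4 (3 / 8) (by norm_num) hs
    have hvoid := ae_not_void (P := P) (K := 2 * k - 1) (by omega) h2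
    filter_upwards [hsil, hvoid] with ω hω hω'
    have hall := hω.and_eventually ((h6.eventually hω').and (h6.eventually hev))
    have h7 : Tendsto (fun s : ℕ => 2 ^ (2 * s + 1 + 2)) atTop atTop :=
      tendsto_atTop_mono (fun s => (by omega : s ≤ 2 * s + 1 + 2).trans Nat.lt_two_pow_self.le) tendsto_id
    refine h7.frequently (hall.mono ?_)
    rintro s ⟨⟨l, hl, hlZ⟩, hv, ht3⟩
    set t := 2 * s + 1 with ht
    rw [Set.mem_union, not_or] at hv
    have hG1 := GG_pos k t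
    have hgb := gg_bounds ht3.1
    have hbl := bb_large (k := k) ht3.1 ht3.2.2
    have hGb : bb k ^ t / 3 ≤ GG k t := by
      unfold GG
      rw [if_neg (by rw [Nat.not_even_iff_odd]; exact ⟨s, rfl⟩)]
      exact (floor_bounds hbl.1).1
    have ht12 : (12 : ℝ) ≤ t := by exact_mod_cast ht3.1
    have hH2 : 2 ≤ gg t * GG k t := by
      have a1 : 2 ≤ gg t := by
        have : (2 : ℝ) ≤ gg t := by linarith [hgb.1]
        exact_mod_cast this
      calc 2 = 2 * 1 := rfl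
        _ ≤ gg t * GG k t := Nat.mul_le_mul a1 hG1
    have e4 : 2 ^ (t + 2) = 4 * 2 ^ t := by ring
    have e5 : 2 ^ (t + 1) = 2 * 2 ^ t := by ring
    have h16 : 2 ^ 4 ≤ 2 ^ t := Nat.pow_le_pow_right (by norm_num) (by have := ht3.1; omega)
    have hgap := gap_of_silent (E := E) (Z := Z) (τ := fun n => Nat.log 2 n) (ω := ω) (t := t) (H := gg t * GG k t)
      (fun l n a b c d => h5 ω t l n a b c d) (X := 2 ^ (t + 2)) (u := 2 ^ t) (v := 2 ^ (t + 1)) hH2 (by omega) (by omega)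
      (fun n a b => log_eq a b) hl hlZ hv.1 hv.2
    refine hgap.mono le_rfl ?_
    push_cast
    have hb1 := one_lt_bb hk
    have hl2 : (0.69 : ℝ) < Real.log 2 := by have := Real.log_two_gt_d9; linarith
    have hl2' : Real.log 2 < 0.7 := by have := Real.log_two_lt_d9; linarith
    have hL : Real.log ((2 : ℝ) ^ (t + 2)) ≤ t := by
      rw [Real.log_pow]
      push_cast
      nlinarith
    have hL0 : 0 ≤ Real.log ((2 : ℝ) ^ (t + 2)) := by
      rw [Real.log_pow]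
      positivity
    have hb2 : ((2 : ℝ) ^ (t + 2)) ^ (1 / (k : ℝ)) ≤ 2 * bb k ^ t := by
      rw [rpow_bb, pow_add, mul_comm]
      exact mul_le_mul_of_nonneg_right (bb_sq hk) (by positivity)
    have hH : (t : ℝ) / 4 * (bb k ^ t / 3) ≤ (gg t : ℝ) * (GG k t : ℝ) :=
      mul_le_mul hgb.1 hGb (by linarith) (by positivity)
    have h8 : ((2 : ℝ) ^ (t + 2)) ^ (1 / (k : ℝ)) * Real.log ((2 : ℝ) ^ (t + 2)) ≤ 2 * bb k ^ t * t :=
      mul_le_mul hb2 hL hL0 (by positivity)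
    linarith

end Pool.Agent.H453.LI
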