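import Pool.Agent.H453.LI.Group
import Pool.Agent.H453.LI.Final

/-!
# The concrete random sets: groups of `gf t` integers, blocks of `Gf t` groups on the scale `t`
-/

namespace Pool.Agent.H453.LI

open Finset MeasureTheory
open scoped ENNReal
open Pool.Agent.Q51.LI (pr pr_mem IsRandomSet HasGap void void_pairwise gap_of_blocks)

section

variable (τ gf Gf : ℕ → ℕ)

/-- the group of `n` -/
def grp (n : ℕ) : ℕ := Nat.pair (τ n) (n / gf (τ n))

/-- the first integer of a group -/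
def fst' (γ : ℕ) : ℕ := (Nat.unpair γ).2 * gf (Nat.unpair γ).1

/-- the integers `n ≥ 8` of a group -/
def Gs (γ : ℕ) : Finset ℕ :=
  (Ico (fst' gf γ) (fst' gf γ + gf (Nat.unpair γ).1)).filter fun n => τ n = (Nat.unpair γ).1 ∧ 8 ≤ n

/-- the values of the bit which are allowed -/
def LLs (γ : ℕ) : Finset (ZMod 2) := if fst' gf γ < 8 then univ else {1}

/-- the distribution of the group -/
noncomputable def las (γ : ℕ) : Measure (ℕ → Bool) := law (Gs τ gf γ) (fst' gf γ < 8)

instance (γ : ℕ) : IsProbabilityMeasure (las τ gf γ) := by unfold las; infer_instance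

/-- the block of a group -/
def bls (γ : ℕ) : ℕ := Nat.pair (Nat.unpair γ).1 ((Nat.unpair γ).2 / Gf (Nat.unpair γ).1)

/-- the position of a group in its block -/
def pos' (γ : ℕ) : ℕ := (Nat.unpair γ).2 % Gf (Nat.unpair γ).1

variable {τ gf Gf}

lemma las_spec (hg : ∀ t, 1 ≤ gf t) (hlog : ∀ n : ℕ, 8 ≤ n → 2 * (gf (τ n) : ℝ) ≤ Real.log n)
    (γ : ℕ) (S : Finset ℕ) (hSne : S.Nonempty) (hS : ∀ n ∈ S, 3 ≤ n ∧ grp τ gf n = γ) :
    ENNReal.ofReal (((LLs gf γ).card : ℝ) / 2) * las τ gf γ (allT S) = ENNReal.ofReal (∏ n ∈ S, 1 / Real.log n) := by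
  classical
  have hS3 : ∀ n ∈ S, 3 ≤ n := fun n hn => (hS n hn).1
  by_cases hfree : fst' gf γ < 8
  · unfold LLs las law
    rw [if_pos hfree, if_neg (fun h => h.1 hfree), mu_allT S hS3, card_univ, ZMod.card]
    norm_num
  · have hS8 : S ⊆ Gs τ gf γ := by
      intro n hn
      have h1 := (hS n hn).2
      unfold grp at h1
      have h2 : (Nat.unpair γ).1 = τ n := by rw [← h1, Nat.unpair_pair]
      have h3 : (Nat.unpair γ).2 = n / gf (τ n) := by rw [← h1, Nat.unpair_pair]
      unfold Gs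
      have h4 : fst' gf γ ≤ n ∧ n < fst' gf γ + gf (Nat.unpair γ).1 := by
        unfold fst'
        rw [h2, h3]
        refine ⟨Nat.div_mul_le_self _ _, ?_⟩
        exact Nat.lt_div_mul_add (hg _)
      rw [mem_filter, mem_Ico]
      exact ⟨h4, h2.symm, by omega⟩
    have hsum : mu.real (someT (Gs τ gf γ)) ≤ 1 / 2 := by
      refine (mu_someT _ fun n hn => ?_).trans ?_
      · have := (mem_filter.1 hn).2.2
        omega
      · have hg0 : (0 : ℝ) < gf (Nat.unpair γ).1 := by exact_mod_cast hg _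
        have h1 : ∀ n ∈ Gs τ gf γ, 1 / Real.log n ≤ 1 / (2 * (gf (Nat.unpair γ).1 : ℝ)) := by
          intro n hn
          have h2 := (mem_filter.1 hn).2
          refine one_div_le_one_div_of_le (by positivity) ?_
          rw [← h2.1]
          exact hlog n h2.2
        refine (sum_le_sum h1).trans ?_
        rw [sum_const, nsmul_eq_mul]
        have h3 : (Gs τ gf γ).card ≤ gf (Nat.unpair γ).1 := by
          unfold Gs
          refine (card_filter_le _ _).trans ?_
          rw [Nat.card_Ico]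
          omega
        have h4 : ((Gs τ gf γ).card : ℝ) ≤ gf (Nat.unpair γ).1 := by exact_mod_cast h3
        rw [mul_one_div, div_le_div_iff₀ (by positivity) (by norm_num)]
        linarith
    unfold LLs las law
    rw [if_neg hfree, if_pos ⟨hfree, hsum⟩, nu_allT _ _ hSne hS8, mu_allT S hS3, card_singleton, ← mul_assoc]
    have h5 : ENNReal.ofReal (((1 : ℕ) : ℝ) / 2) * 2 = 1 := by
      have h6 : (2 : ℝ≥0∞) = ENNReal.ofReal 2 := by norm_num
      rw [h6, ← ENNReal.ofReal_mul (by norm_num)]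
      norm_num
    rw [h5, one_mul]

/-- **The random sets.** On the scale `t = τ n` the integers are divided into groups of `gf t` integers and blocks of
`Gf t` groups. -/
theorem system (r : ℕ) (hr : 1 ≤ r) (hg : ∀ t, 1 ≤ gf t) (hG : ∀ t, 1 ≤ Gf t)
    (hlog : ∀ n : ℕ, 8 ≤ n → 2 * (gf (τ n) : ℝ) ≤ Real.log n) :
    ∃ (Ω : Type) (_ : MeasurableSpace Ω) (P : Measure Ω) (E : ℕ → Set Ω) (Z : ℕ → Set Ω), IsProbabilityMeasure P ∧
      (∀ X, IsRandomSet P (2 * r + 1) X E) ∧
      (∀ (t : ℕ) (J : Finset ℕ), P.real {ω | ∀ l ∈ J, ω ∉ Z (Nat.pair t l)} ≤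
        Real.exp (-(J.card / (2 * (2 * (Gf t : ℝ)) ^ r)))) ∧
      (∀ J : Finset ℕ, P.real {ω | ∀ j ∈ J, ω ∉ Z j} ≤
        Real.exp (-∑ j ∈ J, 1 / (2 * (2 * (Gf (Nat.unpair j).1 : ℝ)) ^ r))) ∧
      (∀ (ω : Ω) (t l n : ℕ), ω ∈ Z (Nat.pair t l) → τ n = t → n / (gf t * Gf t) = l → 8 ≤ l * (gf t * Gf t) →
        ω ∉ E n) := by
  classical
  choose mf hm1 hm2 hm3 using fun t => exists_m (Gf t) (hG t)
  choose WW hWW using fun t => bch (mf t) r (hm1 t)
  set dd : ℕ → ℕ := fun j => 1 + mf (Nat.unpair j).1 * r with hdd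
  let W : ∀ j : ℕ, ℕ → (Fin (dd j) → ZMod 2) := fun j => WW (Nat.unpair j).1
  have hW : ∀ (j : ℕ) (S : Finset ℕ), (∀ γ ∈ S, bls Gf γ = j) → S.card ≤ 2 * r + 1 →
      LinearIndependent (ZMod 2) (fun γ : S => W j (pos' Gf γ)) := by
    intro j S hS hc
    have h1 : ∀ γ ∈ S, (Nat.unpair γ).1 = (Nat.unpair j).1 := by
      intro γ hγ
      rw [← hS γ hγ]
      simp only [bls, Nat.unpair_pair]
    refine hWW (Nat.unpair j).1 S (pos' Gf) ?_ ?_ hc
    · intro γ hγ
      unfold pos'
      rw [h1 γ hγ]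
      exact (Nat.mod_lt _ (hG _)).trans_le (hm2 _)
    · intro a ha b hb hab
      have hb' : bls Gf a = bls Gf b := (hS a ha).trans (hS b hb).symm
      unfold bls at hb'
      unfold pos' at hab
      obtain ⟨ht, hd⟩ := Nat.pair_eq_pair.1 hb'
      rw [← ht] at hd hab
      have h2 : (Nat.unpair a).2 = (Nat.unpair b).2 := by
        rw [← Nat.div_add_mod (Nat.unpair a).2 (Gf (Nat.unpair a).1),
          ← Nat.div_add_mod (Nat.unpair b).2 (Gf (Nat.unpair a).1), hd, hab]
      rw [← Nat.pair_unpair a, ← Nat.pair_unpair b, ht, h2]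
  have hp2 : ∀ t, 1 / (2 * (2 * (Gf t : ℝ)) ^ r) ≤ 1 / (2 : ℝ) ^ (1 + mf t * r) := by
    intro t
    have hG0 : (0 : ℝ) < Gf t := by exact_mod_cast hG t
    apply one_div_le_one_div_of_le (by positivity)
    rw [pow_add, pow_one, pow_mul]
    refine mul_le_mul_of_nonneg_left (pow_le_pow_left₀ (by positivity) ?_ _) (by norm_num)
    exact_mod_cast hm3 t
  have hall : ∀ J : Finset ℕ, (Pm2 dd (las τ gf)).real {ω | ∀ j ∈ J, ω ∉ {ω : Om2 dd | ω.1 j = zw (dd j)}} ≤
      Real.exp (-∑ j ∈ J, 1 / (2 * (2 * (Gf (Nat.unpair j).1 : ℝ)) ^ r)) := by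
    intro J
    refine (no_silent2 (la := las τ gf) J).trans (Real.exp_le_exp.2 ?_)
    rw [neg_le_neg_iff]
    exact sum_le_sum fun j _ => hp2 _
  refine ⟨Om2 dd, inferInstance, Pm2 dd (las τ gf), Ev2 dd W (bls Gf) (pos' Gf) (grp τ gf) (LLs gf),
    fun j => {ω | ω.1 j = zw (dd j)}, inferInstance,
    fun X => isRandomSet_model2 hW (fun γ S h1 h2 => las_spec hg hlog γ S h1 h2) X, ?_, hall, ?_⟩
  · intro t J
    have h1 := hall (J.image fun l => Nat.pair t l)
    rw [sum_image (fun a _ b _ h => (Nat.pair_eq_pair.1 h).2)] at h1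
    simp only [Nat.unpair_pair, sum_const, nsmul_eq_mul] at h1
    refine le_trans (le_of_eq ?_) (h1.trans (le_of_eq ?_))
    · congr 1
      ext ω
      simp
    · rw [mul_one_div]
  · intro ω t l n hω hτ hl h8
    have hgt := hg t
    have h1 : (Nat.unpair (grp τ gf n)).1 = t := by unfold grp; rw [Nat.unpair_pair]; exact hτ
    have h2 : (Nat.unpair (grp τ gf n)).2 = n / gf t := by unfold grp; rw [Nat.unpair_pair, hτ]
    have h3 : bls Gf (grp τ gf n) = Nat.pair t l := by
      unfold bls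
      rw [h1, h2, Nat.div_div_eq_div_mul, hl]
    refine silent_void2 ?_ ?_
    · unfold LLs
      have h4 : ¬ fst' gf (grp τ gf n) < 8 := by
        unfold fst'
        rw [h1, h2]
        have h5 : l * Gf t ≤ n / gf t := by
          rw [← hl, ← Nat.div_div_eq_div_mul]
          exact Nat.div_mul_le_self _ _
        have h6 : l * Gf t * gf t ≤ n / gf t * gf t := Nat.mul_le_mul_right _ h5
        have h7 : l * Gf t * gf t = l * (gf t * Gf t) := by ring
        omega
      rw [if_neg h4]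
    · rw [h3]
      exact hω

end

end Pool.Agent.H453.LI
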