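import Pool.Graph.R_pool_sql_team_seeded_2aa45f1a.Q51.LI.MomentAs

/-!
# An almost sure upper bound for the gaps from independence of order `2 r`, with a power of the logarithm
-/

namespace Pool.Agent.H453.LI

open Finset MeasureTheory Filter
open Pool.Agent.Q51.LI (IsRandomSet HasGap ae_eventually exists_dyadic log_two_pow gap_moment HasGap.mono)

variable {Ω : Type} [MeasurableSpace Ω]

/-- With independence of order `2 r` the largest gap up to `X` is almost surely smaller than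
`X ^ (1 / (r + 1)) (log X) ^ (1 + ε)` for all large `X`. -/
theorem ae_upper {P : Measure Ω} [IsProbabilityMeasure P] (r k : ℕ) (hr : 1 ≤ r) (hk : 2 * r ≤ k) (E : ℕ → Set Ω)
    (h : ∀ X, IsRandomSet P k X E) (ε : ℝ) (hε : 0 < ε) :
    ∀ᵐ ω ∂P, ∀ᶠ X : ℕ in atTop, ¬ HasGap E X ((X : ℝ) ^ (1 / ((r : ℝ) + 1)) * Real.log X ^ (1 + ε)) ω := by
  set θ : ℝ := 1 / ((r : ℝ) + 1) with hθ
  have hr0 : (0 : ℝ) < (r : ℝ) + 1 := by positivity
  have hθ0 : 0 < θ := by positivity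
  set g : ℕ → ℕ := fun i => ⌈((2 ^ i : ℕ) : ℝ) ^ θ * (i : ℝ) ^ (1 + ε / 2)⌉₊ with hg
  have hsum : Summable fun i : ℕ => (i : ℝ) ^ (-(1 + (ε / 2) * ((r : ℝ) + 1))) := by
    apply Real.summable_nat_rpow.2
    have : 0 < (ε / 2) * ((r : ℝ) + 1) := by positivity
    linarith
  have hev : ∀ᵐ ω ∂P, ∀ᶠ i : ℕ in atTop, ω ∉ {ω | HasGap E (2 ^ i) (2 * r * (g i : ℕ) + 1) ω} := by
    refine ae_eventually _ _ hsum 2 ?_
    intro i hi
    have hY3 : 3 ≤ 2 ^ i := by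
      have : 2 ^ 2 ≤ 2 ^ i := Nat.pow_le_pow_right (by norm_num) hi
      omega
    have hY1 : (1 : ℝ) ≤ ((2 ^ i : ℕ) : ℝ) := by
      have : 1 ≤ 2 ^ i := by omega
      exact_mod_cast this
    have hY0 : (0 : ℝ) < ((2 ^ i : ℕ) : ℝ) := by linarith
    have hi0 : (0 : ℝ) < (i : ℝ) := by exact_mod_cast (by omega : 0 < i)
    have hgi : ((2 ^ i : ℕ) : ℝ) ^ θ * (i : ℝ) ^ (1 + ε / 2) ≤ g i := Nat.le_ceil _
    have hgpos : 1 ≤ g i := by
      have h1 : (0 : ℝ) < g i := lt_of_lt_of_le (by positivity) hgi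
      exact_mod_cast h1
    refine (gap_moment hY3 (h _) (g i) r hgpos hr hk).trans ?_
    set Y : ℝ := ((2 ^ i : ℕ) : ℝ) with hY
    have h1 : Y * (i : ℝ) ^ ((1 + ε / 2) * ((r : ℝ) + 1)) ≤ (g i : ℝ) ^ (r + 1) := by
      have h2 : Y * (i : ℝ) ^ ((1 + ε / 2) * ((r : ℝ) + 1)) = (Y ^ θ * (i : ℝ) ^ (1 + ε / 2)) ^ (r + 1) := by
        rw [mul_pow, ← Real.rpow_mul_natCast hY0.le, ← Real.rpow_mul_natCast hi0.le]
        congr 1
        · rw [hθ]
          push_cast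
          rw [one_div, inv_mul_cancel₀ hr0.ne', Real.rpow_one]
        · push_cast
          rfl
      rw [h2]
      exact pow_le_pow_left₀ (by positivity) hgi _
    have hlog : Real.log Y ≤ i := by
      rw [hY, log_two_pow]
      have : Real.log 2 < 1 := by have := Real.log_two_lt_d9; linarith
      nlinarith
    have hlog0 : 0 ≤ Real.log Y := Real.log_nonneg hY1
    have h3 : Y * Real.log Y ^ r / (g i : ℝ) ^ (r + 1) ≤
        Y * (i : ℝ) ^ r / (Y * (i : ℝ) ^ ((1 + ε / 2) * ((r : ℝ) + 1))) := by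
      refine div_le_div₀ (by positivity) ?_ (by positivity) h1
      exact mul_le_mul_of_nonneg_left (pow_le_pow_left₀ hlog0 hlog r) hY0.le
    refine h3.trans (le_of_eq ?_)
    rw [mul_div_mul_left _ _ hY0.ne', ← Real.rpow_natCast (i : ℝ) r, ← Real.rpow_sub hi0]
    congr 1
    ring
  filter_upwards [hev] with ω hω
  obtain ⟨N, hN⟩ := eventually_atTop.1 hω
  set C : ℝ := 2 * r * (2 * 4 ^ (1 + ε / 2)) + 2 * r + 1 with hC
  have hbig : ∀ᶠ X : ℕ in atTop, C ≤ Real.log (X : ℝ) ^ (ε / 2) :=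
    ((tendsto_rpow_atTop (by positivity : (0 : ℝ) < ε / 2)).comp
      (Real.tendsto_log_atTop.comp tendsto_natCast_atTop_atTop)).eventually_ge_atTop _
  filter_upwards [exists_dyadic (N + 1), hbig, eventually_ge_atTop 3] with X hX hXb hX3
  obtain ⟨i, hi, hiX, hXi⟩ := hX
  intro hgap
  have hX3' : (3 : ℝ) ≤ X := by exact_mod_cast hX3
  have hX1' : (1 : ℝ) ≤ X := by linarith
  have hX0 : (0 : ℝ) < X := by linarith
  set L := Real.log (X : ℝ) with hL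
  have hL1 : 1 < L := Pool.Agent.Q51.LI.one_lt_logX hX3
  apply hN (i + 1) (by omega)
  refine hgap.mono hXi.le ?_
  have hiL : ((i + 1 : ℕ) : ℝ) ≤ 4 * L := by
    have h1 : Real.log ((2 ^ i : ℕ) : ℝ) ≤ L := Real.log_le_log (by positivity) (by exact_mod_cast hiX)
    rw [log_two_pow] at h1
    have h2 : (0.6 : ℝ) < Real.log 2 := by have := Real.log_two_gt_d9; linarith
    have h3 : (0 : ℝ) ≤ i := by positivity
    have h4 : (i : ℝ) * 0.6 ≤ L := by nlinarith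
    push_cast
    linarith
  have h5 : (g (i + 1) : ℝ) ≤ (2 * 4 ^ (1 + ε / 2)) * ((X : ℝ) ^ θ * L ^ (1 + ε / 2)) + 1 := by
    have h6 : (g (i + 1) : ℝ) < ((2 ^ (i + 1) : ℕ) : ℝ) ^ θ * ((i + 1 : ℕ) : ℝ) ^ (1 + ε / 2) + 1 :=
      Nat.ceil_lt_add_one (by positivity)
    have h7 : ((2 ^ (i + 1) : ℕ) : ℝ) ^ θ ≤ 2 * (X : ℝ) ^ θ := by
      calc ((2 ^ (i + 1) : ℕ) : ℝ) ^ θ ≤ (2 * (X : ℝ)) ^ θ := by
            refine Real.rpow_le_rpow (by positivity) ?_ hθ0.le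
            have : 2 ^ (i + 1) ≤ 2 * X := by rw [pow_succ]; omega
            exact_mod_cast this
        _ = (2 : ℝ) ^ θ * (X : ℝ) ^ θ := Real.mul_rpow (by norm_num) hX0.le
        _ ≤ 2 * (X : ℝ) ^ θ := by
            refine mul_le_mul_of_nonneg_right ?_ (by positivity)
            calc (2 : ℝ) ^ θ ≤ (2 : ℝ) ^ (1 : ℝ) := Real.rpow_le_rpow_of_exponent_le (by norm_num) (by
                  rw [hθ, div_le_one hr0]
                  have : (0 : ℝ) ≤ r := by positivity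
                  linarith)
              _ = 2 := Real.rpow_one 2
    have h8 : ((i + 1 : ℕ) : ℝ) ^ (1 + ε / 2) ≤ 4 ^ (1 + ε / 2) * L ^ (1 + ε / 2) := by
      rw [← Real.mul_rpow (by norm_num) (by linarith)]
      exact Real.rpow_le_rpow (by positivity) hiL (by positivity)
    have h9 : ((2 ^ (i + 1) : ℕ) : ℝ) ^ θ * ((i + 1 : ℕ) : ℝ) ^ (1 + ε / 2) ≤
        (2 * (X : ℝ) ^ θ) * (4 ^ (1 + ε / 2) * L ^ (1 + ε / 2)) :=
      mul_le_mul h7 h8 (by positivity) (by positivity)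
    have h10 : (2 * (X : ℝ) ^ θ) * (4 ^ (1 + ε / 2) * L ^ (1 + ε / 2)) =
        (2 * 4 ^ (1 + ε / 2)) * ((X : ℝ) ^ θ * L ^ (1 + ε / 2)) := by ring
    linarith
  have h8 : (X : ℝ) ^ θ * L ^ (1 + ε) = (X : ℝ) ^ θ * L ^ (1 + ε / 2) * L ^ (ε / 2) := by
    rw [mul_assoc, ← Real.rpow_add (by linarith)]
    congr 2
    ring
  have h9 : (1 : ℝ) ≤ (X : ℝ) ^ θ * L ^ (1 + ε / 2) := by
    have a1 : (1 : ℝ) ≤ (X : ℝ) ^ θ := Real.one_le_rpow hX1' hθ0.le
    have a2 : (1 : ℝ) ≤ L ^ (1 + ε / 2) := Real.one_le_rpow hL1.le (by positivity)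
    nlinarith
  rw [h8]
  set Z := (X : ℝ) ^ θ * L ^ (1 + ε / 2) with hZ
  have h10 : Z * C ≤ Z * L ^ (ε / 2) := mul_le_mul_of_nonneg_left hXb (by positivity)
  refine le_trans ?_ h10
  have hr1 : (0 : ℝ) ≤ r := by positivity
  have h11 : 2 * (r : ℝ) * (g (i + 1) : ℝ) ≤ 2 * r * ((2 * 4 ^ (1 + ε / 2)) * Z + 1) :=
    mul_le_mul_of_nonneg_left h5 (by positivity)
  have h12 : Z * C = 2 * r * ((2 * 4 ^ (1 + ε / 2)) * Z) + 2 * r * Z + Z := by rw [hC]; ring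
  have h13 : 2 * (r : ℝ) * 1 ≤ 2 * r * Z := mul_le_mul_of_nonneg_left h9 (by positivity)
  linarith

end Pool.Agent.H453.LI
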