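import Pool.Agent.H453.LI.System

/-!
# A silent block gives a gap
-/

namespace Pool.Agent.H453.LI

open Finset MeasureTheory
open Pool.Agent.Q51.LI (pr pr_mem IsRandomSet HasGap void void_pairwise gap_of_blocks)

variable {Ω : Type} [MeasurableSpace Ω] {E Z : ℕ → Set Ω} {τ : ℕ → ℕ}

lemma gap_of_silent {ω : Ω} {t H : ℕ}
    (hZ : ∀ l n : ℕ, ω ∈ Z (Nat.pair t l) → τ n = t → n / H = l → 8 ≤ l * H → ω ∉ E n)
    {X u v : ℕ} (hH : 2 ≤ H) (hu : 8 ≤ u) (hv : v ≤ X / 2) (hτ : ∀ n, u ≤ n → n < v → τ n = t)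
    {l : ℕ} (hl : l ∈ Ico (u / H + 1) (v / H)) (hs : ω ∈ Z (Nat.pair t l))
    (c2 : ω ∉ void E (Ico 3 (3 + (u - 3)))) (c3 : ω ∉ void E (Ico (X / 2 + 1) (X / 2 + 1 + (X - X / 2)))) :
    HasGap E X ((H : ℝ) + 1) ω := by
  simp only [void, Set.mem_ofPred_eq] at c2 c3
  push Not at c2 c3
  obtain ⟨n₁, hn₁, hn₁E⟩ := c2
  obtain ⟨n₂, hn₂, hn₂E⟩ := c3
  rw [mem_Ico] at hn₁ hn₂ hl
  have a1 : u < l * H := by
    have h1 : (u / H + 1) * H ≤ l * H := Nat.mul_le_mul_right _ hl.1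
    have h2 : u < (u / H + 1) * H := by
      have := Nat.lt_div_mul_add (a := u) (b := H) (by omega)
      have e : (u / H + 1) * H = u / H * H + H := by ring
      omega
    omega
  have a2 : (l + 1) * H ≤ v := (Nat.mul_le_mul_right _ hl.2).trans (Nat.div_mul_le_self v H)
  refine gap_of_blocks E X (l * H) ((l + 1) * H) ω ⟨n₁, hn₁.1, by omega, hn₁E⟩
    ⟨n₂, by omega, by omega, hn₂E⟩ (Nat.mul_le_mul_right _ (by omega)) ?_ _ ?_
  · intro n h1 h2
    have e1 : n / H = l := by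
      rw [Nat.div_eq_iff (by omega)]
      have e : (l + 1) * H = l * H + H := by ring
      omega
    exact hZ l n hs (hτ n (by omega) (by omega)) e1 (by omega)
  · push_cast
    linarith

variable {P : Measure Ω} [IsProbabilityMeasure P]

theorem window_prob {K r : ℕ} {G : ℝ} {t H : ℕ}
    (hZ : ∀ ω l n, ω ∈ Z (Nat.pair t l) → τ n = t → n / H = l → 8 ≤ l * H → ω ∉ E n)
    (hP : ∀ J : Finset ℕ, P.real {ω | ∀ l ∈ J, ω ∉ Z (Nat.pair t l)} ≤ Real.exp (-(J.card / (2 * (2 * G) ^ r))))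
    {X u v : ℕ} (hK : 2 ≤ K) (hX : 3 ≤ X) (hE : IsRandomSet P K X E)
    (hH : 2 ≤ H) (hu : 8 ≤ u) (hv : v ≤ X / 2) (hτ : ∀ n, u ≤ n → n < v → τ n = t) :
    P.real {ω | ¬ HasGap E X ((H : ℝ) + 1) ω} ≤
      Real.exp (-(((v / H - (u / H + 1) : ℕ) : ℝ) / (2 * (2 * G) ^ r))) +
        (Real.log X ^ 2 / ((u - 3 : ℕ) : ℝ) + Real.log X ^ 2 / ((X - X / 2 : ℕ) : ℝ)) := by
  have hsub : {ω | ¬ HasGap E X ((H : ℝ) + 1) ω} ⊆
      {ω | ∀ l ∈ Ico (u / H + 1) (v / H), ω ∉ Z (Nat.pair t l)} ∪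
        (void E (Ico 3 (3 + (u - 3))) ∪ void E (Ico (X / 2 + 1) (X / 2 + 1 + (X - X / 2)))) := by
    intro ω hω
    by_contra hcon
    simp only [Set.mem_union, not_or] at hcon
    obtain ⟨c1, c2, c3⟩ := hcon
    simp only [Set.mem_ofPred_eq] at c1
    push Not at c1
    obtain ⟨l, hl, hs⟩ := c1
    exact hω (gap_of_silent (fun l n => hZ ω l n) hH hu hv hτ hl hs c2 c3)
  have huv : X / 2 ≤ X := Nat.div_le_self X 2
  by_cases hlen : u / H + 1 < v / H
  · have huv' : u < v := by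
      by_contra hcon
      have := Nat.div_le_div_right (c := H) (not_lt.1 hcon)
      omega
    refine (measureReal_mono hsub (measure_ne_top _ _)).trans ?_
    refine (measureReal_union_le _ _).trans (add_le_add ?_ ((measureReal_union_le _ _).trans (add_le_add ?_ ?_)))
    · have := hP (Ico (u / H + 1) (v / H))
      rw [Nat.card_Ico] at this
      exact this
    · exact void_pairwise hK hX hE 3 (u - 3) le_rfl (by omega) (by omega)
    · exact void_pairwise hK hX hE (X / 2 + 1) (X - X / 2) (by omega) (by omega) (by omega)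
  · have h0 : v / H - (u / H + 1) = 0 := by omega
    rw [h0]
    simp only [Nat.cast_zero, zero_div, neg_zero, Real.exp_zero]
    have h1 : P.real {ω | ¬ HasGap E X ((H : ℝ) + 1) ω} ≤ 1 := measureReal_le_one
    have h2 : 0 ≤ Real.log X ^ 2 / ((u - 3 : ℕ) : ℝ) := by positivity
    have h3 : 0 ≤ Real.log X ^ 2 / ((X - X / 2 : ℕ) : ℝ) := by positivity
    linarith

end Pool.Agent.H453.LI
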